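import Mathlib
import Pool.Agent.H223.EM.MDefs

set_option autoImplicit false

/-!
Task MN1 of the eighth moment project: the exact values of the main terms.
-/

namespace Pool.Agent.H491R2.EMMN1

open Finset Filter Topology MeasureTheory
open Pool.Agent.H306R2 Pool.Agent.H306R2.SM Pool.Agent.H223.EM

noncomputable section

/-- sharp cutoff -/
def Hv (x : ℝ) : ℝ := if x < 1 / 2 then 1 else 0

lemma Hv_meas : Measurable Hv := by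
  unfold Hv
  exact Measurable.ite measurableSet_Iio measurable_const measurable_const

lemma et_ev (x : ℝ) : ∀ᶠ ε : ℝ in 𝓝[>] 0, et ε x = Hv x := by
  unfold Hv
  split_ifs with h
  · have h1 : ∀ᶠ ε : ℝ in 𝓝[>] 0, ε < (1 / 2 - x) / 2 := by
      filter_upwards [Ioo_mem_nhdsGT (show (0:ℝ) < (1 / 2 - x) / 2 by linarith)] with ε hε using hε.2
    filter_upwards [h1, self_mem_nhdsWithin] with ε h2 h3
    have h3' : (0:ℝ) < ε := h3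
    unfold et
    exact sc_eq_one h3' (by linarith)
  · filter_upwards [self_mem_nhdsWithin] with ε h3
    have h3' : (0:ℝ) < ε := h3
    unfold et
    exact sc_eq_zero h3' (by linarith)

lemma et_nonneg (ε x : ℝ) : 0 ≤ et ε x := sc_nonneg _ _ _

lemma et_le_one (ε x : ℝ) : et ε x ≤ 1 := sc_le_one _ _ _

lemma et_zero {ε x : ℝ} (hε : 0 < ε) (hx : 1 / 2 ≤ x) : et ε x = 0 := by
  unfold et
  exact sc_eq_zero hε (by linarith)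

lemma et_meas (ε : ℝ) : Measurable (et ε) := (sc_cont _ _).measurable

/-- bounded measurable functions with bounded support -/
structure Nice {n : ℕ} (F : (Fin n → ℝ) → ℝ) : Prop where
  meas : Measurable F
  bd : ∃ C R : ℝ, ∀ u, |F u| ≤ C ∧ (F u ≠ 0 → ∀ i, |u i| ≤ R)

lemma box_int {n : ℕ} (C R : ℝ) :
    Integrable ((Set.pi Set.univ (fun _ : Fin n => Set.Icc (-R) R)).indicator (fun _ => C)) := by
  rw [integrable_indicator_iff (MeasurableSet.univ_pi fun _ => measurableSet_Icc)]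
  exact integrableOn_const (isCompact_univ_pi fun _ => isCompact_Icc).measure_lt_top.ne

lemma Nice.integrable {n : ℕ} {F : (Fin n → ℝ) → ℝ} (h : Nice F) : Integrable F := by
  obtain ⟨C, R, hC⟩ := h.bd
  refine (box_int C R).mono' h.meas.aestronglyMeasurable (Eventually.of_forall fun u => ?_)
  rw [Real.norm_eq_abs]
  by_cases hu : F u = 0
  · rw [hu, abs_zero]
    refine Set.indicator_nonneg (fun x _ => ?_) u
    exact (abs_nonneg _).trans (hC x).1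
  · rw [Set.indicator_of_mem]
    · exact (hC u).1
    · intro i _
      exact abs_le.mp ((hC u).2 hu i)

lemma Nice.slice {n : ℕ} {F : (Fin (n + 1) → ℝ) → ℝ} (h : Nice F) (k : Fin (n + 1)) (x : ℝ) :
    Nice (fun v : Fin n → ℝ => F (k.insertNth x v)) := by
  obtain ⟨C, R, hC⟩ := h.bd
  refine ⟨?_, C, R, fun v => ⟨(hC _).1, fun hv i => ?_⟩⟩
  · have h1 := (MeasurableEquiv.piFinSuccAbove (fun _ : Fin (n + 1) => ℝ) k).symm.measurable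
    have h2 : Measurable (fun v : Fin n → ℝ => (x, v)) := measurable_const.prodMk measurable_id
    exact h.meas.comp (h1.comp h2)
  · have := (hC _).2 hv (k.succAbove i)
    rwa [Fin.insertNth_apply_succAbove] at this

lemma fub {n : ℕ} {F : (Fin (n + 1) → ℝ) → ℝ} (h : Nice F) (k : Fin (n + 1)) :
    ∫ u, F u = ∫ x, ∫ v : Fin n → ℝ, F (k.insertNth x v) := by
  have hmp := volume_preserving_piFinSuccAbove (fun _ : Fin (n + 1) => ℝ) k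
  set e := MeasurableEquiv.piFinSuccAbove (fun _ : Fin (n + 1) => ℝ) k with he
  have h1 := (hmp.symm e).integral_comp' (g := F)
  have hint2 : Integrable (fun p : ℝ × (Fin n → ℝ) => F (e.symm p)) :=
    ((hmp.symm e).integrable_comp_emb e.symm.measurableEmbedding (g := F)).mpr h.integrable
  rw [← h1]
  rw [Measure.volume_eq_prod] at hint2 ⊢
  rw [integral_prod _ hint2]
  rfl

lemma int0 (F : (Fin 0 → ℝ) → ℝ) (w : Fin 0 → ℝ) : ∫ u, F u = F w := by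
  rw [integral_unique]
  have : (volume : Measure (Fin 0 → ℝ)).real Set.univ = 1 := by
    rw [Measure.real]
    simp [volume_pi]
  rw [this, one_smul]
  congr 1
  exact Subsingleton.elim _ _

lemma cutint {f g : ℝ → ℝ} {c : ℝ} (hc : 0 ≤ c) (h : ∀ x, f x = if 0 < x ∧ x < c then g x else 0) :
    ∫ x, f x = ∫ x in (0:ℝ)..c, g x := by
  have h1 : f = (Set.Ioo 0 c).indicator g := by
    funext x
    rw [h x, Set.indicator_apply]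
    rfl
  rw [h1, integral_indicator measurableSet_Ioo, intervalIntegral.integral_of_le hc,
    integral_Ioc_eq_integral_Ioo]

lemma polyint (n : ℕ) (a : ℕ → ℝ) (c : ℝ) :
    ∫ x in (0:ℝ)..c, ∑ i ∈ range n, a i * x ^ i =
      ∑ i ∈ range n, a i * (c ^ (i + 1) / ((i : ℝ) + 1)) := by
  rw [intervalIntegral.integral_finsetSum]
  · refine sum_congr rfl fun i _ => ?_
    rw [intervalIntegral.integral_const_mul, integral_pow]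
    simp
  · intro i _
    exact (Continuous.intervalIntegrable (by fun_prop) _ _)

lemma gd_nat (n : ℕ) (x : ℝ) : gd ((n : ℝ) + 1) x = if 0 < x then x ^ n / (n.factorial : ℝ) else 0 := by
  unfold gd
  rw [Real.Gamma_nat_eq_factorial, show (n : ℝ) + 1 - 1 = (n : ℝ) by ring, Real.rpow_natCast]

lemma gd1 (x : ℝ) : gd 1 x = if 0 < x then 1 else 0 := by
  have := gd_nat 0 x
  norm_num at this
  exact this

lemma gd2 (x : ℝ) : gd 2 x = if 0 < x then x else 0 := by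
  have := gd_nat 1 x
  norm_num at this
  exact this

lemma gd3 (x : ℝ) : gd 3 x = if 0 < x then x ^ 2 / 2 else 0 := by
  have := gd_nat 2 x
  norm_num at this
  exact this

lemma gd6 (x : ℝ) : gd 6 x = if 0 < x then x ^ 5 / 120 else 0 := by
  have := gd_nat 5 x
  norm_num [Nat.factorial] at this
  exact this

lemma gd9 (x : ℝ) : gd 9 x = if 0 < x then x ^ 8 / 40320 else 0 := by
  have := gd_nat 8 x
  norm_num [Nat.factorial] at this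
  exact this

lemma GG_cont : Continuous (fun p : ℝ × ℝ => GG p.1 p.2) := by
  unfold GG
  fun_prop

lemma box_bd {n : ℕ} (Q : (Fin n → ℝ) → ℝ) (hQ : Continuous Q) :
    ∃ C : ℝ, 0 ≤ C ∧ ∀ u, (∀ i, 0 < u i ∧ u i < 1 / 2) → |Q u| ≤ C := by
  obtain ⟨C, hC⟩ := (isCompact_univ_pi fun _ : Fin n =>
    (isCompact_Icc (a := (0:ℝ)) (b := 1 / 2))).exists_bound_of_continuousOn hQ.continuousOn
  refine ⟨max C 0, le_max_right _ _, fun u hu => ?_⟩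
  refine le_trans (hC u ?_) (le_max_left _ _)
  intro i _
  exact ⟨(hu i).1.le, (hu i).2.le⟩

lemma dct {n : ℕ} (F : ℝ → (Fin n → ℝ) → ℝ) (G Q : (Fin n → ℝ) → ℝ) (hm : ∀ ε, Measurable (F ε))
    (hG : Measurable G) (hQ : Continuous Q)
    (hb : ∀ ε, 0 < ε → ∀ u, |F ε u| ≤ if (∀ i, 0 < u i ∧ u i < 1 / 2) then |Q u| else 0)
    (hl : ∀ u, ∀ᶠ ε in 𝓝[>] (0:ℝ), F ε u = G u) :
    Tendsto (fun ε => ∫ u, F ε u) (𝓝[>] 0) (𝓝 (∫ u, G u)) ∧ Nice G := by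
  obtain ⟨C, hC0, hC⟩ := box_bd Q hQ
  have hmain : ∀ ε, 0 < ε → ∀ u, |F ε u| ≤ C ∧ (F ε u ≠ 0 → ∀ i, |u i| ≤ 1) := by
    intro ε hε u
    have h := hb ε hε u
    split_ifs at h with h2
    · refine ⟨h.trans (hC u h2), fun _ i => ?_⟩
      rw [abs_le]
      constructor <;> linarith [(h2 i).1, (h2 i).2]
    · have h3 : F ε u = 0 := abs_eq_zero.mp (le_antisymm h (abs_nonneg _))
      rw [h3]
      simp [hC0]
  constructor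
  · refine tendsto_integral_filter_of_dominated_convergence
      ((Set.pi Set.univ (fun _ : Fin n => Set.Icc (-1 : ℝ) 1)).indicator (fun _ => C)) ?_ ?_
      (box_int C 1) ?_
    · exact Eventually.of_forall fun ε => (hm ε).aestronglyMeasurable
    · filter_upwards [self_mem_nhdsWithin] with ε hε
      refine Eventually.of_forall fun u => ?_
      rw [Real.norm_eq_abs]
      by_cases hu : F ε u = 0
      · rw [hu, abs_zero]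
        exact Set.indicator_nonneg (fun x _ => hC0) u
      · rw [Set.indicator_of_mem]
        · exact (hmain ε hε u).1
        · intro i _
          exact abs_le.mp ((hmain ε hε u).2 hu i)
    · refine Eventually.of_forall fun u => ?_
      exact (tendsto_const_nhds (x := G u)).congr' ((hl u).mono fun ε h => h.symm)
  · refine ⟨hG, C, 1, fun u => ?_⟩
    obtain ⟨ε, h1, h2⟩ := ((hl u).and (self_mem_nhdsWithin (s := Set.Ioi (0:ℝ)))).exists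
    rw [← h1]
    exact hmain ε h2 u

lemma Gd_meas {r : ℕ} (m : Fin r → ℝ) : Measurable (Gd m) := by
  unfold Gd
  exact Finset.measurable_prod _ fun i _ => (gd_meas (m i)).comp (measurable_pi_apply i)

lemma GG_meas {r : ℕ} {f g : (Fin r → ℝ) → ℝ} (hf : Measurable f) (hg : Measurable g) :
    Measurable (fun u => GG (f u) (g u)) :=
  GG_cont.measurable.comp (hf.prodMk hg)

/-! ### the norm -/

/-- limit integrand of the norm -/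
def Fn (u : Fin 2 → ℝ) : ℝ := Gd ![9, 1] u * (GG (u 0) (u 1) * Hv (u 0) * Hv (u 1)) ^ 2

lemma Fn_meas : Measurable Fn := by
  unfold Fn
  refine (Gd_meas _).mul (Measurable.pow_const ?_ 2)
  exact ((GG_meas (measurable_pi_apply 0) (measurable_pi_apply 1)).mul
    (Hv_meas.comp (measurable_pi_apply 0))).mul (Hv_meas.comp (measurable_pi_apply 1))

lemma Gd2 (u : Fin 2 → ℝ) : Gd ![9, 1] u = if 0 < u 0 ∧ 0 < u 1 then u 0 ^ 8 / 40320 else 0 := by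
  unfold Gd
  rw [Fin.prod_univ_two]
  simp only [Matrix.cons_val_zero, Matrix.cons_val_one]
  rw [gd9, gd1]
  by_cases h0 : 0 < u 0 <;> by_cases h1 : 0 < u 1 <;> simp [h0, h1]

lemma norm_dct : Tendsto IW1n (𝓝[>] 0) (𝓝 (∫ u, Fn u)) ∧ Nice Fn := by
  refine dct (fun ε u => Gd ![9, 1] u * f1 ε (u 0) (u 1) ^ 2) Fn
    (fun u => u 0 ^ 8 / 40320 * GG (u 0) (u 1) ^ 2) ?_ Fn_meas ?_ ?_ ?_
  · intro ε
    refine (Gd_meas _).mul (Measurable.pow_const ?_ 2)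
    unfold f1
    exact ((GG_meas (measurable_pi_apply 0) (measurable_pi_apply 1)).mul
      ((et_meas ε).comp (measurable_pi_apply 0))).mul ((et_meas ε).comp (measurable_pi_apply 1))
  · unfold GG
    fun_prop
  · intro ε hε u
    rw [Gd2]
    by_cases h : ∀ i, 0 < u i ∧ u i < 1 / 2
    · rw [if_pos h, if_pos ⟨(h 0).1, (h 1).1⟩]
      have e1 : 0 ≤ u 0 ^ 8 / 40320 := by
        have := (h 0).1
        positivity
      rw [abs_mul, abs_mul, abs_of_nonneg e1]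
      refine mul_le_mul_of_nonneg_left ?_ e1
      unfold f1
      rw [abs_of_nonneg (sq_nonneg _), abs_of_nonneg (sq_nonneg _), mul_pow, mul_pow]
      have a1 := et_nonneg ε (u 0)
      have a2 := et_le_one ε (u 0)
      have b1 := et_nonneg ε (u 1)
      have b2 := et_le_one ε (u 1)
      have c1 : et ε (u 0) ^ 2 ≤ 1 := pow_le_one₀ a1 a2
      have c2 : et ε (u 1) ^ 2 ≤ 1 := pow_le_one₀ b1 b2
      calc GG (u 0) (u 1) ^ 2 * et ε (u 0) ^ 2 * et ε (u 1) ^ 2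
          ≤ GG (u 0) (u 1) ^ 2 * 1 * 1 := by gcongr
        _ = _ := by ring
    · rw [if_neg h]
      refine le_of_eq ?_
      rw [abs_eq_zero]
      rw [Fin.forall_fin_two] at h
      by_cases h0 : 0 < u 0 ∧ 0 < u 1
      · rw [if_pos h0]
        unfold f1
        rcases lt_or_ge (u 0) (1 / 2) with h1 | h1
        · rcases lt_or_ge (u 1) (1 / 2) with h2 | h2
          · exact absurd ⟨⟨h0.1, h1⟩, ⟨h0.2, h2⟩⟩ h
          · rw [et_zero hε h2]; ring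
        · rw [et_zero hε h1]; ring
      · rw [if_neg h0, zero_mul]
  · intro u
    filter_upwards [et_ev (u 0), et_ev (u 1)] with ε h1 h2
    unfold Fn f1
    rw [h1, h2]

lemma ins2 (x0 x1 : ℝ) (y : Fin 0 → ℝ) :
    (0 : Fin 2).insertNth x0 ((0 : Fin 1).insertNth x1 y) = (![x0, x1] : Fin 2 → ℝ) := by
  symm
  rw [Fin.eq_insertNth_iff]
  refine ⟨rfl, ?_⟩
  symm
  funext j
  fin_cases j
  simp

lemma norm_val : ∫ u, Fn u = 240289 / 42240 / (Nat.factorial 16 : ℝ) := by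
  have hN := norm_dct.2
  rw [fub hN 0]
  have h1 : ∀ x0 : ℝ, ∫ v : Fin 1 → ℝ, Fn ((0 : Fin 2).insertNth x0 v) = ∫ x1 : ℝ, Fn ![x0, x1] := by
    intro x0
    rw [fub (hN.slice 0 x0) 0]
    refine integral_congr_ae (Eventually.of_forall fun x1 => ?_)
    simp only
    rw [int0 _ Fin.elim0, ins2]
  simp only [h1]
  have hval : ∀ x0 x1 : ℝ, Fn ![x0, x1] = if (0 < x0 ∧ x0 < 1 / 2) ∧ (0 < x1 ∧ x1 < 1 / 2) then
      x0 ^ 8 / 40320 * GG x0 x1 ^ 2 else 0 := by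
    intro x0 x1
    unfold Fn
    rw [Gd2]
    simp only [Matrix.cons_val_zero, Matrix.cons_val_one]
    unfold Hv
    by_cases a : 0 < x0 <;> by_cases b : x0 < 1 / 2 <;> by_cases c : 0 < x1 <;>
      by_cases d : x1 < 1 / 2 <;> simp only [a, b, c, d, and_self, and_true, and_false, true_and,
        false_and, if_true, if_false] <;> ring
  have h2 : ∀ x0 : ℝ, ∫ x1 : ℝ, Fn ![x0, x1] = if 0 < x0 ∧ x0 < 1 / 2 then
      x0 ^ 8 / 40320 * ((7 / 4608 : ℝ) + (-17 / 2304 : ℝ) * x0 + (203 / 17280 : ℝ) * x0 ^ 2 + (-101 / 23760 : ℝ) * x0 ^ 3 + (-1129 / 237600 : ℝ) * x0 ^ 4 + (49 / 23760 : ℝ) * x0 ^ 5 + (2401 / 1960200 : ℝ) * x0 ^ 6) else 0 := by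
    intro x0
    by_cases h : 0 < x0 ∧ x0 < 1 / 2
    · rw [if_pos h]
      rw [cutint (c := 1 / 2) (g := fun x1 => x0 ^ 8 / 40320 * GG x0 x1 ^ 2) (by norm_num)
        (fun x1 => by rw [hval]; simp only [h, and_self, true_and])]
      rw [intervalIntegral.integral_const_mul]
      congr 1
      have e : ∀ x1 : ℝ, GG x0 x1 ^ 2 = ∑ i ∈ range 3, (fun i : ℕ => ([(1 / 144 : ℝ) + (-5 / 144 : ℝ) * x0 + (173 / 2880 : ℝ) * x0 ^ 2 + (-397 / 11880 : ℝ) * x0 ^ 3 + (-631 / 59400 : ℝ) * x0 ^ 4 + (49 / 4950 : ℝ) * x0 ^ 5 + (2401 / 980100 : ℝ) * x0 ^ 6, (-1 / 48 : ℝ) + (31 / 288 : ℝ) * x0 + (-73 / 360 : ℝ) * x0 ^ 2 + (5 / 33 : ℝ) * x0 ^ 3 + (-203 / 14850 : ℝ) * x0 ^ 4 + (-343 / 14850 : ℝ) * x0 ^ 5, (1 / 64 : ℝ) + (-1 / 12 : ℝ) * x0 + (61 / 360 : ℝ) * x0 ^ 2 + (-7 / 45 : ℝ) * x0 ^ 3 + (49 / 900 : ℝ) * x0 ^ 4] : List ℝ).getD i 0) i * x1 ^ i := by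
        intro x1
        unfold GG
        simp [sum_range_succ]
        ring
      simp only [e]
      have hp := polyint 3 (fun i : ℕ => ([(1 / 144 : ℝ) + (-5 / 144 : ℝ) * x0 + (173 / 2880 : ℝ) * x0 ^ 2 + (-397 / 11880 : ℝ) * x0 ^ 3 + (-631 / 59400 : ℝ) * x0 ^ 4 + (49 / 4950 : ℝ) * x0 ^ 5 + (2401 / 980100 : ℝ) * x0 ^ 6, (-1 / 48 : ℝ) + (31 / 288 : ℝ) * x0 + (-73 / 360 : ℝ) * x0 ^ 2 + (5 / 33 : ℝ) * x0 ^ 3 + (-203 / 14850 : ℝ) * x0 ^ 4 + (-343 / 14850 : ℝ) * x0 ^ 5, (1 / 64 : ℝ) + (-1 / 12 : ℝ) * x0 + (61 / 360 : ℝ) * x0 ^ 2 + (-7 / 45 : ℝ) * x0 ^ 3 + (49 / 900 : ℝ) * x0 ^ 4] : List ℝ).getD i 0) (1 / 2)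
      rw [hp]
      simp [sum_range_succ]
      ring
    · rw [if_neg h]
      have : ∀ x1, Fn ![x0, x1] = 0 := by
        intro x1
        rw [hval, if_neg (fun h' => h h'.1)]
      simp only [this, integral_zero]
  rw [cutint (c := 1 / 2) (by norm_num) h2]
  have e : ∀ x0 : ℝ, x0 ^ 8 / 40320 * ((7 / 4608 : ℝ) + (-17 / 2304 : ℝ) * x0 + (203 / 17280 : ℝ) * x0 ^ 2 + (-101 / 23760 : ℝ) * x0 ^ 3 + (-1129 / 237600 : ℝ) * x0 ^ 4 + (49 / 23760 : ℝ) * x0 ^ 5 + (2401 / 1960200 : ℝ) * x0 ^ 6) =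
      ∑ i ∈ range 15, (fun i : ℕ => ([0, 0, 0, 0, 0, 0, 0, 0, (1 / 26542080 : ℝ), (-17 / 92897280 : ℝ), (29 / 99532800 : ℝ), (-101 / 958003200 : ℝ), (-1129 / 9580032000 : ℝ), (7 / 136857600 : ℝ), (343 / 11290752000 : ℝ)] : List ℝ).getD i 0) i * x0 ^ i := by
    intro x0
    simp [sum_range_succ]
    ring
  simp only [e]
  have hp := polyint 15 (fun i : ℕ => ([0, 0, 0, 0, 0, 0, 0, 0, (1 / 26542080 : ℝ), (-17 / 92897280 : ℝ), (29 / 99532800 : ℝ), (-101 / 958003200 : ℝ), (-1129 / 9580032000 : ℝ), (7 / 136857600 : ℝ), (343 / 11290752000 : ℝ)] : List ℝ).getD i 0) (1 / 2)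
  rw [hp]
  simp [sum_range_succ]
  norm_num [Nat.factorial]

/-! ### the cross term -/

/-- limit integrand of the cross term -/
def Fc (u : Fin 4 → ℝ) : ℝ := Gd ![3, 6, 1, 2] u *
  (GG (u 0 + u 1) (u 2) * Hv (u 0 + u 1) * Hv (u 2) * Hv (u 1 + u 3) * (1 - u 0 - u 2 - u 3))

lemma Fc_meas : Measurable Fc := by
  unfold Fc
  refine (Gd_meas _).mul ?_
  have m (i : Fin 4) : Measurable (fun u : Fin 4 → ℝ => u i) := measurable_pi_apply i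
  exact ((((GG_meas ((m 0).add (m 1)) (m 2)).mul (Hv_meas.comp ((m 0).add (m 1)))).mul
    (Hv_meas.comp (m 2))).mul (Hv_meas.comp ((m 1).add (m 3)))).mul
    (((measurable_const.sub (m 0)).sub (m 2)).sub (m 3))

lemma Gd4 (u : Fin 4 → ℝ) : Gd ![3, 6, 1, 2] u =
    if 0 < u 0 ∧ 0 < u 1 ∧ 0 < u 2 ∧ 0 < u 3 then u 0 ^ 2 / 2 * (u 1 ^ 5 / 120) * u 3 else 0 := by
  unfold Gd
  rw [Fin.prod_univ_four]
  have e0 : (![3, 6, 1, 2] : Fin 4 → ℝ) 0 = 3 := rfl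
  have e1 : (![3, 6, 1, 2] : Fin 4 → ℝ) 1 = 6 := rfl
  have e2 : (![3, 6, 1, 2] : Fin 4 → ℝ) 2 = 1 := rfl
  have e3 : (![3, 6, 1, 2] : Fin 4 → ℝ) 3 = 2 := rfl
  rw [e0, e1, e2, e3, gd3, gd6, gd1, gd2]
  by_cases h0 : 0 < u 0 <;> by_cases h1 : 0 < u 1 <;> by_cases h2 : 0 < u 2 <;>
    by_cases h3 : 0 < u 3 <;> simp [h0, h1, h2, h3]

lemma cross_dct : Tendsto IW1c (𝓝[>] 0) (𝓝 (∫ u, Fc u)) ∧ Nice Fc := by
  refine dct (fun ε u => Gd ![3, 6, 1, 2] u *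
    (f1 ε (u 0 + u 1) (u 2) * et ε (u 1 + u 3) * (1 - u 0 - u 2 - u 3))) Fc
    (fun u => u 0 ^ 2 / 2 * (u 1 ^ 5 / 120) * u 3 *
      (GG (u 0 + u 1) (u 2) * (1 - u 0 - u 2 - u 3))) ?_ Fc_meas ?_ ?_ ?_
  · intro ε
    refine (Gd_meas _).mul ?_
    have m (i : Fin 4) : Measurable (fun u : Fin 4 → ℝ => u i) := measurable_pi_apply i
    unfold f1
    exact ((((GG_meas ((m 0).add (m 1)) (m 2)).mul ((et_meas ε).comp ((m 0).add (m 1)))).mul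
      ((et_meas ε).comp (m 2))).mul ((et_meas ε).comp ((m 1).add (m 3)))).mul
      (((measurable_const.sub (m 0)).sub (m 2)).sub (m 3))
  · unfold GG
    fun_prop
  · intro ε hε u
    rw [Gd4]
    by_cases h0 : 0 < u 0 ∧ 0 < u 1 ∧ 0 < u 2 ∧ 0 < u 3
    · rw [if_pos h0]
      obtain ⟨p0, p1, p2, p3⟩ := h0
      have e1 : 0 ≤ u 0 ^ 2 / 2 * (u 1 ^ 5 / 120) * u 3 := by positivity
      by_cases h : ∀ i, 0 < u i ∧ u i < 1 / 2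
      · rw [if_pos h, abs_mul (u 0 ^ 2 / 2 * (u 1 ^ 5 / 120) * u 3),
          abs_mul (u 0 ^ 2 / 2 * (u 1 ^ 5 / 120) * u 3), abs_of_nonneg e1]
        refine mul_le_mul_of_nonneg_left ?_ e1
        unfold f1
        rw [abs_mul, abs_mul, abs_mul, abs_mul, abs_mul, abs_of_nonneg (et_nonneg _ _),
          abs_of_nonneg (et_nonneg _ _), abs_of_nonneg (et_nonneg _ _)]
        refine mul_le_mul_of_nonneg_right ?_ (abs_nonneg _)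
        have a1 := et_nonneg ε (u 0 + u 1)
        have a2 := et_le_one ε (u 0 + u 1)
        have b1 := et_nonneg ε (u 2)
        have b2 := et_le_one ε (u 2)
        have c1 := et_nonneg ε (u 1 + u 3)
        have c2 := et_le_one ε (u 1 + u 3)
        calc |GG (u 0 + u 1) (u 2)| * et ε (u 0 + u 1) * et ε (u 2) * et ε (u 1 + u 3)
            ≤ |GG (u 0 + u 1) (u 2)| * 1 * 1 * 1 := by gcongr
          _ = _ := by ring
      · rw [if_neg h]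
        refine le_of_eq ?_
        rw [abs_eq_zero]
        unfold f1
        rcases lt_or_ge (u 0 + u 1) (1 / 2) with h1 | h1
        · rcases lt_or_ge (u 2) (1 / 2) with h2 | h2
          · rcases lt_or_ge (u 1 + u 3) (1 / 2) with h3 | h3
            · exfalso
              apply h
              intro i
              fin_cases i
              · exact ⟨p0, by simp only [Fin.zero_eta]; linarith⟩
              · exact ⟨p1, by simp only [Fin.mk_one]; linarith⟩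
              · exact ⟨p2, h2⟩
              · exact ⟨p3, by simp only [Fin.reduceFinMk]; linarith⟩
            · rw [et_zero hε h3]; ring
          · rw [et_zero hε h2]; ring
        · rw [et_zero hε h1]; ring
    · rw [if_neg h0, zero_mul, abs_zero]
      split_ifs
      · exact abs_nonneg _
      · exact le_refl _
  · intro u
    filter_upwards [et_ev (u 0 + u 1), et_ev (u 2), et_ev (u 1 + u 3)] with ε h1 h2 h3
    unfold Fc f1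
    rw [h1, h2, h3]

lemma ins4 (x0 x1 x2 x3 : ℝ) (y : Fin 0 → ℝ) :
    (1 : Fin 4).insertNth x1 ((0 : Fin 3).insertNth x0 ((0 : Fin 2).insertNth x2
      ((0 : Fin 1).insertNth x3 y))) = (![x0, x1, x2, x3] : Fin 4 → ℝ) := by
  symm
  rw [Fin.eq_insertNth_iff]
  refine ⟨rfl, ?_⟩
  symm
  funext j
  fin_cases j
  · rfl
  · rfl
  · rfl

/-- inner polynomial after the integrations over `u 3`, `u 2` -/
def S2 (x0 x1 : ℝ) : ℝ := (7 / 4608 : ℝ) + (-35 / 4608 : ℝ) * x1 + (1 / 120 : ℝ) * x1 ^ 2 + (581 / 47520 : ℝ) * x1 ^ 3 + (-401 / 15840 : ℝ) * x1 ^ 4 + (61 / 15840 : ℝ) * x1 ^ 5 + (49 / 5940 : ℝ) * x1 ^ 6 + (-1 / 144 : ℝ) * x0 + (191 / 5760 : ℝ) * x0 * x1 + (-353 / 7920 : ℝ) * x0 * x1 ^ 2 + (1 / 176 : ℝ) * x0 * x1 ^ 3 + (13 / 1980 : ℝ) * x0 * x1 ^ 4 + (49 / 3960 : ℝ) * x0 * x1 ^ 5 + (53 / 5760 : ℝ) * x0 ^ 2 + (-769 / 21120 : ℝ) * x0 ^ 2 * x1 +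 (509 / 15840 : ℝ) * x0 ^ 2 * x1 ^ 2 + (221 / 15840 : ℝ) * x0 ^ 2 * x1 ^ 3 + (-49 / 3960 : ℝ) * x0 ^ 2 * x1 ^ 4 + (-25 / 19008 : ℝ) * x0 ^ 3 + (-31 / 15840 : ℝ) * x0 ^ 3 * x1 + (17 / 720 : ℝ) * x0 ^ 3 * x1 ^ 2 + (-343 / 11880 : ℝ) * x0 ^ 3 * x1 ^ 3 + (-49 / 15840 : ℝ) * x0 ^ 4 + (49 / 3960 : ℝ) * x0 ^ 4 * x1 + (-49 / 3960 : ℝ) * x0 ^ 4 * x1 ^ 2

/-- polynomial after the integration over `u 0` -/
def S0 (x1 : ℝ) : ℝ := (989 / 364953600 : ℝ) + (-887 / 121651200 : ℝ) * x1 + (-7 / 57600 : ℝ) * x1 ^ 2 + (20687 / 22809600 : ℝ) * x1 ^ 3 + (-5261 / 1900800 : ℝ) * x1 ^ 4 + (1913 / 422400 : ℝ) * x1 ^ 5 + (-5813 / 1425600 : ℝ) * x1 ^ 6 + (281 / 158400 : ℝ) * x1 ^ 7 + (-7 / 52800 : ℝ) * x1 ^ 8 + (-161 / 1425600 : ℝ) * x1 ^ 9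

lemma Fc_val (x0 x1 x2 x3 : ℝ) : Fc ![x0, x1, x2, x3] =
    if (0 < x1 ∧ x1 < 1 / 2) ∧ (0 < x0 ∧ x0 < 1 / 2 - x1) ∧ (0 < x2 ∧ x2 < 1 / 2) ∧
      (0 < x3 ∧ x3 < 1 / 2 - x1) then
    x0 ^ 2 / 2 * (x1 ^ 5 / 120) * GG (x0 + x1) x2 * (x3 * (1 - x0 - x2 - x3)) else 0 := by
  unfold Fc
  rw [Gd4]
  have e0 : (![x0, x1, x2, x3] : Fin 4 → ℝ) 0 = x0 := rfl
  have e1 : (![x0, x1, x2, x3] : Fin 4 → ℝ) 1 = x1 := rfl
  have e2 : (![x0, x1, x2, x3] : Fin 4 → ℝ) 2 = x2 := rfl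
  have e3 : (![x0, x1, x2, x3] : Fin 4 → ℝ) 3 = x3 := rfl
  rw [e0, e1, e2, e3]
  unfold Hv
  by_cases h : (0 < x1 ∧ x1 < 1 / 2) ∧ (0 < x0 ∧ x0 < 1 / 2 - x1) ∧ (0 < x2 ∧ x2 < 1 / 2) ∧
      (0 < x3 ∧ x3 < 1 / 2 - x1)
  · rw [if_pos h]
    obtain ⟨⟨a1, a2⟩, ⟨a3, a4⟩, ⟨a5, a6⟩, a7, a8⟩ := h
    rw [if_pos ⟨a3, a1, a5, a7⟩, if_pos (show x0 + x1 < 1 / 2 by linarith), if_pos a6,
      if_pos (show x1 + x3 < 1 / 2 by linarith)]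
    ring
  · rw [if_neg h]
    by_cases h0 : 0 < x0 ∧ 0 < x1 ∧ 0 < x2 ∧ 0 < x3
    · rw [if_pos h0]
      by_cases h1 : x0 + x1 < 1 / 2
      · by_cases h2 : x2 < 1 / 2
        · by_cases h3 : x1 + x3 < 1 / 2
          · exfalso
            apply h
            obtain ⟨b0, b1, b2, b3⟩ := h0
            refine ⟨⟨b1, by linarith⟩, ⟨b0, by linarith⟩, ⟨b2, h2⟩, ⟨b3, by linarith⟩⟩
          · rw [if_neg h3]; ring
        · rw [if_neg h2]; ring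
      · rw [if_neg h1]; ring
    · rw [if_neg h0, zero_mul]

lemma step3 (x0 x1 x2 : ℝ) : ∫ x3 : ℝ, Fc ![x0, x1, x2, x3] =
    if (0 < x1 ∧ x1 < 1 / 2) ∧ (0 < x0 ∧ x0 < 1 / 2 - x1) ∧ (0 < x2 ∧ x2 < 1 / 2) then
    x0 ^ 2 / 2 * (x1 ^ 5 / 120) * (GG (x0 + x1) x2 *
      ((1 - x0 - x2) * ((1 / 2 - x1) ^ 2 / 2) - (1 / 2 - x1) ^ 3 / 3)) else 0 := by
  by_cases h : (0 < x1 ∧ x1 < 1 / 2) ∧ (0 < x0 ∧ x0 < 1 / 2 - x1) ∧ (0 < x2 ∧ x2 < 1 / 2)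
  · rw [if_pos h]
    rw [cutint (c := 1 / 2 - x1) (g := fun x3 => x0 ^ 2 / 2 * (x1 ^ 5 / 120) * GG (x0 + x1) x2 *
      (x3 * (1 - x0 - x2 - x3))) (by linarith [h.1.2])
      (fun x3 => by rw [Fc_val]; simp only [h, true_and, and_self])]
    rw [intervalIntegral.integral_const_mul]
    have e : ∀ x3 : ℝ, x3 * (1 - x0 - x2 - x3) =
        ∑ i ∈ range 3, (fun i : ℕ => ([0, 1 - x0 - x2, -1] : List ℝ).getD i 0) i * x3 ^ i := by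
      intro x3
      simp [sum_range_succ]
      ring
    simp only [e]
    have hp := polyint 3 (fun i : ℕ => ([0, 1 - x0 - x2, -1] : List ℝ).getD i 0) (1 / 2 - x1)
    rw [hp]
    simp [sum_range_succ]
    ring
  · rw [if_neg h]
    have : ∀ x3, Fc ![x0, x1, x2, x3] = 0 := by
      intro x3
      rw [Fc_val, if_neg (fun h' => h ⟨h'.1, h'.2.1, h'.2.2.1⟩)]
    simp only [this, integral_zero]

lemma step2 (x0 x1 : ℝ) : ∫ x2 : ℝ, ∫ x3 : ℝ, Fc ![x0, x1, x2, x3] =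
    if (0 < x1 ∧ x1 < 1 / 2) ∧ (0 < x0 ∧ x0 < 1 / 2 - x1) then
    x0 ^ 2 / 2 * (x1 ^ 5 / 120) * S2 x0 x1 else 0 := by
  simp only [step3]
  by_cases h : (0 < x1 ∧ x1 < 1 / 2) ∧ (0 < x0 ∧ x0 < 1 / 2 - x1)
  · rw [if_pos h]
    rw [cutint (c := 1 / 2) (g := fun x2 => x0 ^ 2 / 2 * (x1 ^ 5 / 120) * (GG (x0 + x1) x2 *
      ((1 - x0 - x2) * ((1 / 2 - x1) ^ 2 / 2) - (1 / 2 - x1) ^ 3 / 3))) (by norm_num)
      (fun x2 => by simp only [h, true_and, and_self])]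
    rw [intervalIntegral.integral_const_mul]
    congr 1
    have e : ∀ x2 : ℝ, GG (x0 + x1) x2 *
      ((1 - x0 - x2) * ((1 / 2 - x1) ^ 2 / 2) - (1 / 2 - x1) ^ 3 / 3) =
        ∑ i ∈ range 3, (fun i : ℕ => ([(1 / 144 : ℝ) + (-11 / 288 : ℝ) * x1 + (29 / 480 : ℝ) * x1 ^ 2 + (41 / 5940 : ℝ) * x1 ^ 3 + (-9 / 110 : ℝ) * x1 ^ 4 + (1 / 30 : ℝ) * x1 ^ 5 + (49 / 2970 : ℝ) * x1 ^ 6 + (-1 / 36 : ℝ) * x0 + (131 / 960 : ℝ) * x0 * x1 + (-97 / 495 : ℝ) * x0 * x1 ^ 2 + (41 / 990 : ℝ) * x0 * x1 ^ 3 + (41 / 990 : ℝ) * x0 * x1 ^ 4 + (49 / 1980 : ℝ) * x0 * x1 ^ 5 + (11 / 320 : ℝ) * x0 ^ 2 + (-1123 / 7920 : ℝ) * x0 ^ 2 * x1 + (49 / 330 : ℝ) * x0 ^ 2 * x1 ^ 2 + (1 / 132 : ℝ) * x0 ^ 2 * x1 ^ 3 + (-49 / 1980 : ℝ) * x0 ^ 2 * x1 ^ 4 + (-199 / 23760 : ℝ) * x0 ^ 3 + (151 / 7920 : ℝ) * x0 ^ 3 * x1 + (4 / 165 : ℝ) * x0 ^ 3 * x1 ^ 2 + (-343 / 5940 : ℝ) * x0 ^ 3 * x1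 ^ 3 + (-49 / 7920 : ℝ) * x0 ^ 4 + (49 / 1980 : ℝ) * x0 ^ 4 * x1 + (-49 / 1980 : ℝ) * x0 ^ 4 * x1 ^ 2, (-1 / 48 : ℝ) + (73 / 576 : ℝ) * x1 + (-47 / 180 : ℝ) * x1 ^ 2 + (163 / 990 : ℝ) * x1 ^ 3 + (17 / 198 : ℝ) * x1 ^ 4 + (-203 / 1980 : ℝ) * x1 ^ 5 + (5 / 72 : ℝ) * x0 + (-16 / 45 : ℝ) * x0 * x1 + (37 / 66 : ℝ) * x0 * x1 ^ 2 + (-98 / 495 : ℝ) * x0 * x1 ^ 3 + (-56 / 495 : ℝ) * x0 * x1 ^ 4 + (-53 / 720 : ℝ) * x0 ^ 2 + (277 / 880 : ℝ) * x0 ^ 2 * x1 + (-62 / 165 : ℝ) * x0 ^ 2 * x1 ^ 2 + (161 / 1980 : ℝ) * x0 ^ 2 * x1 ^ 3 + (91 / 3960 : ℝ) * x0 ^ 3 + (-91 / 990 : ℝ) * x0 ^ 3 * x1 + (91 / 990 : ℝ) * x0 ^ 3 * x1 ^ 2, (1 / 64 : ℝ) + (-5 / 48 : ℝ) * x1 + (31 / 120 : ℝ) * x1 ^ 2 + (-17 / 60 : ℝ) * x1 ^ 3 + (7 / 60 : ℝ) * x1 ^ 4 + (-1 / 24 : ℝ) * x0 + (9 / 40 : ℝ) * x0 * x1 + (-2 / 5 : ℝ) * x0 * x1 ^ 2 + (7 / 30 : ℝ) * x0 * x1 ^ 3 + (7 / 240 : ℝ) * x0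 ^ 2 + (-7 / 60 : ℝ) * x0 ^ 2 * x1 + (7 / 60 : ℝ) * x0 ^ 2 * x1 ^ 2] : List ℝ).getD i 0) i * x2 ^ i := by
      intro x2
      unfold GG
      simp [sum_range_succ]
      ring
    simp only [e]
    have hp := polyint 3 (fun i : ℕ => ([(1 / 144 : ℝ) + (-11 / 288 : ℝ) * x1 + (29 / 480 : ℝ) * x1 ^ 2 + (41 / 5940 : ℝ) * x1 ^ 3 + (-9 / 110 : ℝ) * x1 ^ 4 + (1 / 30 : ℝ) * x1 ^ 5 + (49 / 2970 : ℝ) * x1 ^ 6 + (-1 / 36 : ℝ) * x0 + (131 / 960 : ℝ) * x0 * x1 + (-97 / 495 : ℝ) * x0 * x1 ^ 2 + (41 / 990 : ℝ) * x0 * x1 ^ 3 + (41 / 990 : ℝ) * x0 * x1 ^ 4 + (49 / 1980 : ℝ) * x0 * x1 ^ 5 + (11 / 320 : ℝ) * x0 ^ 2 + (-1123 / 7920 : ℝ) * x0 ^ 2 * x1 + (49 / 330 : ℝ) * x0 ^ 2 * x1 ^ 2 + (1 / 132 : ℝ) * x0 ^ 2 * x1 ^ 3 + (-49 / 1980 : ℝ) * x0 ^ 2 * x1 ^ 4 + (-199 / 23760 : ℝ) * x0 ^ 3 + (151 / 7920 : ℝ) * x0 ^ 3 * x1 + (4 / 165 : ℝ) * x0 ^ 3 * x1 ^ 2 + (-343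 / 5940 : ℝ) * x0 ^ 3 * x1 ^ 3 + (-49 / 7920 : ℝ) * x0 ^ 4 + (49 / 1980 : ℝ) * x0 ^ 4 * x1 + (-49 / 1980 : ℝ) * x0 ^ 4 * x1 ^ 2, (-1 / 48 : ℝ) + (73 / 576 : ℝ) * x1 + (-47 / 180 : ℝ) * x1 ^ 2 + (163 / 990 : ℝ) * x1 ^ 3 + (17 / 198 : ℝ) * x1 ^ 4 + (-203 / 1980 : ℝ) * x1 ^ 5 + (5 / 72 : ℝ) * x0 + (-16 / 45 : ℝ) * x0 * x1 + (37 / 66 : ℝ) * x0 * x1 ^ 2 + (-98 / 495 : ℝ) * x0 * x1 ^ 3 + (-56 / 495 : ℝ) * x0 * x1 ^ 4 + (-53 / 720 : ℝ) * x0 ^ 2 + (277 / 880 : ℝ) * x0 ^ 2 * x1 + (-62 / 165 : ℝ) * x0 ^ 2 * x1 ^ 2 + (161 / 1980 : ℝ) * x0 ^ 2 * x1 ^ 3 + (91 / 3960 : ℝ) * x0 ^ 3 + (-91 / 990 : ℝ) * x0 ^ 3 * x1 + (91 / 990 : ℝ) * x0 ^ 3 * x1 ^ 2, (1 / 64 : ℝ) + (-5 / 48 : ℝ) * x1 + (31 / 120 : ℝ) * x1 ^ 2 + (-17 / 60 : ℝ) * x1 ^ 3 + (7 / 60 : ℝ) * x1 ^ 4 + (-1 / 24 : ℝ) * x0 + (9 / 40 : ℝ) * x0 * x1 + (-2 / 5 : ℝ) * x0 * x1 ^ 2 + (7 / 30 : ℝ) * x0 *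 x1 ^ 3 + (7 / 240 : ℝ) * x0 ^ 2 + (-7 / 60 : ℝ) * x0 ^ 2 * x1 + (7 / 60 : ℝ) * x0 ^ 2 * x1 ^ 2] : List ℝ).getD i 0) (1 / 2)
    rw [hp]
    unfold S2
    simp [sum_range_succ]
    ring
  · rw [if_neg h]
    have : ∀ x2 : ℝ, (if (0 < x1 ∧ x1 < 1 / 2) ∧ (0 < x0 ∧ x0 < 1 / 2 - x1) ∧
        (0 < x2 ∧ x2 < 1 / 2) then x0 ^ 2 / 2 * (x1 ^ 5 / 120) * (GG (x0 + x1) x2 *
      ((1 - x0 - x2) * ((1 / 2 - x1) ^ 2 / 2) - (1 / 2 - x1) ^ 3 / 3)) else 0) = 0 := by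
      intro x2
      rw [if_neg (fun h' => h ⟨h'.1, h'.2.1⟩)]
    simp only [this, integral_zero]

lemma step0 (x1 : ℝ) : ∫ x0 : ℝ, ∫ x2 : ℝ, ∫ x3 : ℝ, Fc ![x0, x1, x2, x3] =
    if 0 < x1 ∧ x1 < 1 / 2 then x1 ^ 5 / 120 * S0 x1 else 0 := by
  simp only [step2]
  by_cases h : 0 < x1 ∧ x1 < 1 / 2
  · rw [if_pos h]
    rw [cutint (c := 1 / 2 - x1) (g := fun x0 => x0 ^ 2 / 2 * (x1 ^ 5 / 120) * S2 x0 x1)
      (by linarith [h.2]) (fun x0 => by simp only [h, true_and, and_self])]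
    have e : ∀ x0 : ℝ, x0 ^ 2 / 2 * (x1 ^ 5 / 120) * S2 x0 x1 =
        x1 ^ 5 / 120 * ∑ i ∈ range 7, (fun i : ℕ => ([0, 0, (7 / 9216 : ℝ) + (-35 / 9216 : ℝ) * x1 + (1 / 240 : ℝ) * x1 ^ 2 + (581 / 95040 : ℝ) * x1 ^ 3 + (-401 / 31680 : ℝ) * x1 ^ 4 + (61 / 31680 : ℝ) * x1 ^ 5 + (49 / 11880 : ℝ) * x1 ^ 6, (-1 / 288 : ℝ) + (191 / 11520 : ℝ) * x1 + (-353 / 15840 : ℝ) * x1 ^ 2 + (1 / 352 : ℝ) * x1 ^ 3 + (13 / 3960 : ℝ) * x1 ^ 4 + (49 / 7920 : ℝ) * x1 ^ 5, (53 / 11520 : ℝ) + (-769 / 42240 : ℝ) * x1 + (509 / 31680 : ℝ) * x1 ^ 2 + (221 / 31680 : ℝ) * x1 ^ 3 + (-49 / 7920 : ℝ) * x1 ^ 4, (-25 / 38016 : ℝ) + (-31 / 31680 : ℝ) * x1 + (17 / 1440 : ℝ) * x1 ^ 2 + (-343 / 23760 : ℝ) * x1 ^ 3, (-49 / 31680 : ℝ) + (49 / 7920 : ℝ) * x1 + (-49 / 7920 : ℝ) * x1 ^ 2] : List ℝ).getD i 0) i * x0 ^ i := by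
      intro x0
      unfold S2
      simp [sum_range_succ]
      ring
    simp only [e]
    rw [intervalIntegral.integral_const_mul]
    congr 1
    have hp := polyint 7 (fun i : ℕ => ([0, 0, (7 / 9216 : ℝ) + (-35 / 9216 : ℝ) * x1 + (1 / 240 : ℝ) * x1 ^ 2 + (581 / 95040 : ℝ) * x1 ^ 3 + (-401 / 31680 : ℝ) * x1 ^ 4 + (61 / 31680 : ℝ) * x1 ^ 5 + (49 / 11880 : ℝ) * x1 ^ 6, (-1 / 288 : ℝ) + (191 / 11520 : ℝ) * x1 + (-353 / 15840 : ℝ) * x1 ^ 2 + (1 / 352 : ℝ) * x1 ^ 3 + (13 / 3960 : ℝ) * x1 ^ 4 + (49 / 7920 : ℝ) * x1 ^ 5, (53 / 11520 : ℝ) + (-769 / 42240 : ℝ) * x1 + (509 / 31680 : ℝ) * x1 ^ 2 + (221 / 31680 : ℝ) * x1 ^ 3 + (-49 / 7920 : ℝ) * x1 ^ 4, (-25 / 38016 : ℝ) + (-31 / 31680 : ℝ) * x1 + (17 / 1440 : ℝ) * x1 ^ 2 + (-343 / 23760 : ℝ) * x1 ^ 3, (-49 / 31680 : ℝ) + (49 / 7920 : ℝ) * x1 + (-49 / 7920 : ℝ) * x1 ^ 2] : List ℝ).getD i 0) (1 /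 2 - x1)
    rw [hp]
    unfold S0
    simp [sum_range_succ]
    ring
  · rw [if_neg h]
    have : ∀ x0 : ℝ, (if (0 < x1 ∧ x1 < 1 / 2) ∧ (0 < x0 ∧ x0 < 1 / 2 - x1) then
      x0 ^ 2 / 2 * (x1 ^ 5 / 120) * S2 x0 x1 else 0) = 0 := by
      intro x0
      rw [if_neg (fun h' => h h'.1)]
    simp only [this, integral_zero]

lemma cross_val : ∫ u, Fc u = 240289 / 42240 / (Nat.factorial 16 : ℝ) := by
  have hN := cross_dct.2
  have h1 : ∫ u, Fc u = ∫ x1 : ℝ, ∫ x0 : ℝ, ∫ x2 : ℝ, ∫ x3 : ℝ, Fc ![x0, x1, x2, x3] := by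
    rw [fub hN 1]
    refine integral_congr_ae (Eventually.of_forall fun x1 => ?_)
    simp only
    have n1 := hN.slice 1 x1
    rw [fub n1 0]
    refine integral_congr_ae (Eventually.of_forall fun x0 => ?_)
    simp only
    have n2 := n1.slice 0 x0
    rw [fub n2 0]
    refine integral_congr_ae (Eventually.of_forall fun x2 => ?_)
    simp only
    have n3 := n2.slice 0 x2
    rw [fub n3 0]
    refine integral_congr_ae (Eventually.of_forall fun x3 => ?_)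
    simp only
    rw [int0 _ Fin.elim0, ins4]
  rw [h1]
  rw [cutint (c := 1 / 2) (by norm_num) step0]
  have e : ∀ x1 : ℝ, x1 ^ 5 / 120 * S0 x1 =
      ∑ i ∈ range 15, (fun i : ℕ => ([0, 0, 0, 0, 0, (989 / 43794432000 : ℝ), (-887 / 14598144000 : ℝ), (-7 / 6912000 : ℝ), (20687 / 2737152000 : ℝ), (-5261 / 228096000 : ℝ), (1913 / 50688000 : ℝ), (-5813 / 171072000 : ℝ), (281 / 19008000 : ℝ), (-7 / 6336000 : ℝ), (-161 / 171072000 : ℝ)] : List ℝ).getD i 0) i * x1 ^ i := by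
    intro x1
    unfold S0
    simp [sum_range_succ]
    ring
  simp only [e]
  have hp := polyint 15 (fun i : ℕ => ([0, 0, 0, 0, 0, (989 / 43794432000 : ℝ), (-887 / 14598144000 : ℝ), (-7 / 6912000 : ℝ), (20687 / 2737152000 : ℝ), (-5261 / 228096000 : ℝ), (1913 / 50688000 : ℝ), (-5813 / 171072000 : ℝ), (281 / 19008000 : ℝ), (-7 / 6336000 : ℝ), (-161 / 171072000 : ℝ)] : List ℝ).getD i 0) (1 / 2)
  rw [hp]
  simp [sum_range_succ]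
  norm_num [Nat.factorial]

end

end Pool.Agent.H491R2.EMMN1

namespace Pool.Agent.H491R2.EMMN1

open Filter Topology Pool.Agent.H223.EM

/-- MN1 -/
theorem IW1_lim : Tendsto IW1n (𝓝[>] 0) (𝓝 (240289 / 42240 / (Nat.factorial 16 : ℝ))) ∧
    Tendsto IW1c (𝓝[>] 0) (𝓝 (240289 / 42240 / (Nat.factorial 16 : ℝ))) := by
  refine ⟨?_, ?_⟩
  · rw [← norm_val]
    exact norm_dct.1
  · rw [← cross_val]
    exact cross_dct.1

end Pool.Agent.H491R2.EMMN1
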