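import Pool.Agent.H491R2.EM_MN1
import Pool.Agent.H223.TM.Defs

set_option autoImplicit false

/-!
Task N1 of the twelfth moment project: exact values of the main terms of `C1`.
-/

namespace Pool.Agent.H491R2.TMN1

open Finset Filter Topology MeasureTheory
open Pool.Agent.H306R2 Pool.Agent.H306R2.SM Pool.Agent.H223.EM Pool.Agent.H223.TM
open Pool.Agent.H491R2.EMMN1

noncomputable section

/-- sharp cutoff at `1/4` -/
def Hq (x : ℝ) : ℝ := if x < 1 / 4 then 1 else 0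

lemma Hq_meas : Measurable Hq := by
  unfold Hq
  exact Measurable.ite measurableSet_Iio measurable_const measurable_const

lemma eq4_ev (x : ℝ) : ∀ᶠ ε : ℝ in 𝓝[>] 0, eq4 ε x = Hq x := by
  unfold Hq
  split_ifs with h
  · have h1 : ∀ᶠ ε : ℝ in 𝓝[>] 0, ε < (1 / 4 - x) / 2 := by
      filter_upwards [Ioo_mem_nhdsGT (show (0:ℝ) < (1 / 4 - x) / 2 by linarith)] with ε hε using hε.2
    filter_upwards [h1, self_mem_nhdsWithin] with ε h2 h3
    have h3' : (0:ℝ) < ε := h3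
    unfold eq4
    exact sc_eq_one h3' (by linarith)
  · filter_upwards [self_mem_nhdsWithin] with ε h3
    have h3' : (0:ℝ) < ε := h3
    unfold eq4
    exact sc_eq_zero h3' (by linarith)

lemma eq4_nonneg (ε x : ℝ) : 0 ≤ eq4 ε x := sc_nonneg _ _ _

lemma eq4_le_one (ε x : ℝ) : eq4 ε x ≤ 1 := sc_le_one _ _ _

lemma eq4_zero {ε x : ℝ} (hε : 0 < ε) (hx : 1 / 4 ≤ x) : eq4 ε x = 0 := by
  unfold eq4
  exact sc_eq_zero hε (by linarith)

lemma eq4_meas (ε : ℝ) : Measurable (eq4 ε) := (sc_cont _ _).measurable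

/-- scaled beta integral -/
lemma bint (c : ℝ) (q : ℕ) : ∀ p : ℕ, ∫ x in (0:ℝ)..c, x ^ p * (c - x) ^ q =
    ((p.factorial : ℝ) * (q.factorial : ℝ)) / ((p + q + 1).factorial : ℝ) * c ^ (p + q + 1) := by
  induction q with
  | zero =>
    intro p
    simp only [pow_zero, mul_one, add_zero, Nat.factorial_zero, Nat.cast_one]
    rw [integral_pow, Nat.factorial_succ]
    have h : (p.factorial : ℝ) ≠ 0 := by positivity
    have h2 : ((p : ℝ) + 1) ≠ 0 := by positivity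
    push_cast
    field_simp
    simp
  | succ q ih =>
    intro p
    have h1 : ∀ x : ℝ, x ^ p * (c - x) ^ (q + 1) = c * (x ^ p * (c - x) ^ q) - x ^ (p + 1) * (c - x) ^ q := by
      intro x; ring
    simp only [h1]
    rw [intervalIntegral.integral_sub (Continuous.intervalIntegrable (by fun_prop) _ _)
      (Continuous.intervalIntegrable (by fun_prop) _ _), intervalIntegral.integral_const_mul, ih p,
      ih (p + 1)]
    have e1 : p + 1 + q + 1 = (p + q + 1) + 1 := by ring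
    have e2 : p + (q + 1) + 1 = (p + q + 1) + 1 := by ring
    rw [e1, e2, Nat.factorial_succ (p + q + 1), Nat.factorial_succ p, Nat.factorial_succ q]
    have h3 : ((p + q + 1).factorial : ℝ) ≠ 0 := by positivity
    have h4 : ((p : ℝ) + q + 1 + 1) ≠ 0 := by positivity
    push_cast
    field_simp
    ring

lemma bsum (c : ℝ) (p n : ℕ) (a : ℕ → ℝ) :
    ∫ x in (0:ℝ)..c, ∑ i ∈ range n, a i * (x ^ p * (c - x) ^ i) =
      ∑ i ∈ range n, a i * (((p.factorial : ℝ) * (i.factorial : ℝ)) / ((p + i + 1).factorial : ℝ) *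
        c ^ (p + i + 1)) := by
  rw [intervalIntegral.integral_finsetSum]
  · refine sum_congr rfl fun i _ => ?_
    rw [intervalIntegral.integral_const_mul, bint]
  · intro i _
    exact (Continuous.intervalIntegrable (by fun_prop) _ _)

lemma gd5 (x : ℝ) : gd 5 x = if 0 < x then x ^ 4 / 24 else 0 := by
  have := gd_nat 4 x
  norm_num [Nat.factorial] at this
  exact this

lemma gd10 (x : ℝ) : gd 10 x = if 0 < x then x ^ 9 / 362880 else 0 := by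
  have := gd_nat 9 x
  norm_num [Nat.factorial] at this
  exact this

lemma gd25 (x : ℝ) : gd 25 x = if 0 < x then x ^ 24 / 620448401733239439360000 else 0 := by
  have := gd_nat 24 x
  norm_num [Nat.factorial] at this
  exact this

/-- the coefficient polynomial -/
def gA (x : ℝ) : ℝ := 1 + 10 * (1 / 2 - x) + 500 * (1 / 2 - x) ^ 2

lemma gA_meas : Measurable gA := by
  have : Continuous gA := by unfold gA; fun_prop
  exact this.measurable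

/-! ### the norm -/

/-- limit integrand of the norm -/
def Fn (u : Fin 2 → ℝ) : ℝ := Gd ![25, 1] u * (gA (u 0) * (3 - 4 * u 1) * Hv (u 0) * Hv (u 1)) ^ 2

lemma Fn_meas : Measurable Fn := by
  unfold Fn
  refine (Gd_meas _).mul (Measurable.pow_const ?_ 2)
  have m (i : Fin 2) : Measurable (fun u : Fin 2 → ℝ => u i) := measurable_pi_apply i
  exact (((gA_meas.comp (m 0)).mul (measurable_const.sub (measurable_const.mul (m 1)))).mul
    (Hv_meas.comp (m 0))).mul (Hv_meas.comp (m 1))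

lemma Gd2 (u : Fin 2 → ℝ) : Gd ![25, 1] u =
    if 0 < u 0 ∧ 0 < u 1 then u 0 ^ 24 / 620448401733239439360000 else 0 := by
  unfold Gd
  rw [Fin.prod_univ_two]
  simp only [Matrix.cons_val_zero, Matrix.cons_val_one]
  rw [gd25, gd1]
  by_cases h0 : 0 < u 0 <;> by_cases h1 : 0 < u 1 <;> simp [h0, h1]

lemma norm_dct : Tendsto JAn (𝓝[>] 0) (𝓝 (∫ u, Fn u)) ∧ Nice Fn := by
  refine dct (fun ε u => Gd ![25, 1] u * FA ε (u 0) (u 1) ^ 2) Fn
    (fun u => u 0 ^ 24 / 620448401733239439360000 * (gA (u 0) * (3 - 4 * u 1)) ^ 2) ?_ Fn_meas ?_ ?_ ?_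
  · intro ε
    refine (Gd_meas _).mul (Measurable.pow_const ?_ 2)
    have m (i : Fin 2) : Measurable (fun u : Fin 2 → ℝ => u i) := measurable_pi_apply i
    unfold FA
    exact (((gA_meas.comp (m 0)).mul (measurable_const.sub (measurable_const.mul (m 1)))).mul
      ((et_meas ε).comp (m 0))).mul ((et_meas ε).comp (m 1))
  · unfold gA
    fun_prop
  · intro ε hε u
    rw [Gd2]
    by_cases h : ∀ i, 0 < u i ∧ u i < 1 / 2
    · rw [if_pos h, if_pos ⟨(h 0).1, (h 1).1⟩]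
      have e1 : 0 ≤ u 0 ^ 24 / 620448401733239439360000 := by
        have := (h 0).1
        positivity
      rw [abs_mul, abs_mul, abs_of_nonneg e1]
      refine mul_le_mul_of_nonneg_left ?_ e1
      have hFA : FA ε (u 0) (u 1) = gA (u 0) * (3 - 4 * u 1) * et ε (u 0) * et ε (u 1) := rfl
      rw [hFA, abs_of_nonneg (sq_nonneg _), abs_of_nonneg (sq_nonneg _), mul_pow _ (et ε (u 1)),
        mul_pow _ (et ε (u 0))]
      have a1 := et_nonneg ε (u 0)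
      have a2 := et_le_one ε (u 0)
      have b1 := et_nonneg ε (u 1)
      have b2 := et_le_one ε (u 1)
      have c1 : et ε (u 0) ^ 2 ≤ 1 := pow_le_one₀ a1 a2
      have c2 : et ε (u 1) ^ 2 ≤ 1 := pow_le_one₀ b1 b2
      calc (gA (u 0) * (3 - 4 * u 1)) ^ 2 * et ε (u 0) ^ 2 * et ε (u 1) ^ 2
          ≤ (gA (u 0) * (3 - 4 * u 1)) ^ 2 * 1 * 1 := by gcongr
        _ = _ := by ring
    · rw [if_neg h]
      refine le_of_eq ?_
      rw [abs_eq_zero]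
      rw [Fin.forall_fin_two] at h
      by_cases h0 : 0 < u 0 ∧ 0 < u 1
      · rw [if_pos h0]
        unfold FA
        rcases lt_or_ge (u 0) (1 / 2) with h1 | h1
        · rcases lt_or_ge (u 1) (1 / 2) with h2 | h2
          · exact absurd ⟨⟨h0.1, h1⟩, ⟨h0.2, h2⟩⟩ h
          · rw [et_zero hε h2]; ring
        · rw [et_zero hε h1]; ring
      · rw [if_neg h0, zero_mul]
  · intro u
    filter_upwards [et_ev (u 0), et_ev (u 1)] with ε h1 h2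
    unfold Fn FA gA
    rw [h1, h2]

lemma norm_val : ∫ u, Fn u = 162761294670975 / 32768 / (Nat.factorial 36 : ℝ) := by
  have hN := norm_dct.2
  rw [fub hN 0]
  have h1 : ∀ x0 : ℝ, ∫ v : Fin 1 → ℝ, Fn ((0 : Fin 2).insertNth x0 v) = ∫ x1 : ℝ, Fn ![x0, x1] := by
    intro x0
    rw [fub (hN.slice 0 x0) 0]
    refine integral_congr_ae (Eventually.of_forall fun x1 => ?_)
    simp only
    rw [int0 _ Fin.elim0, ins2]
  simp only [h1]
  have hval : ∀ x0 x1 : ℝ, Fn ![x0, x1] = if (0 < x0 ∧ x0 < 1 / 2) ∧ (0 < x1 ∧ x1 < 1 / 2) then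
      x0 ^ 24 / 620448401733239439360000 * gA x0 ^ 2 * (3 - 4 * x1) ^ 2 else 0 := by
    intro x0 x1
    unfold Fn
    rw [Gd2]
    simp only [Matrix.cons_val_zero, Matrix.cons_val_one]
    unfold Hv
    by_cases a : 0 < x0 <;> by_cases b : x0 < 1 / 2 <;> by_cases c : 0 < x1 <;>
      by_cases d : x1 < 1 / 2 <;> simp only [a, b, c, d, and_self, and_true, and_false, true_and,
        false_and, if_true, if_false] <;> ring
  have h2 : ∀ x0 : ℝ, ∫ x1 : ℝ, Fn ![x0, x1] = if 0 < x0 ∧ x0 < 1 / 2 then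
      x0 ^ 24 / 620448401733239439360000 * gA x0 ^ 2 * (13 / 6) else 0 := by
    intro x0
    by_cases h : 0 < x0 ∧ x0 < 1 / 2
    · rw [if_pos h]
      rw [cutint (c := 1 / 2) (g := fun x1 => x0 ^ 24 / 620448401733239439360000 * gA x0 ^ 2 *
        (3 - 4 * x1) ^ 2) (by norm_num)
        (fun x1 => by rw [hval]; simp only [h, and_self, true_and])]
      rw [intervalIntegral.integral_const_mul]
      congr 1
      have e : ∀ x1 : ℝ, (3 - 4 * x1) ^ 2 =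
          ∑ i ∈ range 3, (fun i : ℕ => ([9, -24, 16] : List ℝ).getD i 0) i * x1 ^ i := by
        intro x1
        simp [sum_range_succ]
        ring
      simp only [e]
      have hp := polyint 3 (fun i : ℕ => ([9, -24, 16] : List ℝ).getD i 0) (1 / 2)
      rw [hp]
      simp [sum_range_succ]
      norm_num
    · rw [if_neg h]
      have : ∀ x1, Fn ![x0, x1] = 0 := by
        intro x1
        rw [hval, if_neg (fun h' => h h'.1)]
      simp only [this, integral_zero]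
  rw [cutint (c := 1 / 2) (by norm_num) h2]
  have e : ∀ x0 : ℝ, x0 ^ 24 / 620448401733239439360000 * gA x0 ^ 2 * (13 / 6) =
      ∑ i ∈ range 5, (fun i : ℕ => ([13 / 6 / 620448401733239439360000,
        20 * (13 / 6) / 620448401733239439360000, 1100 * (13 / 6) / 620448401733239439360000,
        10000 * (13 / 6) / 620448401733239439360000,
        250000 * (13 / 6) / 620448401733239439360000] : List ℝ).getD i 0) i *
        (x0 ^ 24 * (1 / 2 - x0) ^ i) := by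
    intro x0
    simp only [sum_range_succ, range_zero, sum_empty, List.getD_cons_zero, List.getD_cons_succ]
    unfold gA
    ring
  simp only [e]
  have hp := bsum (1 / 2) 24 5 (fun i : ℕ => ([13 / 6 / 620448401733239439360000,
        20 * (13 / 6) / 620448401733239439360000, 1100 * (13 / 6) / 620448401733239439360000,
        10000 * (13 / 6) / 620448401733239439360000,
        250000 * (13 / 6) / 620448401733239439360000] : List ℝ).getD i 0)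
  rw [hp]
  simp only [sum_range_succ, range_zero, sum_empty, List.getD_cons_zero, List.getD_cons_succ]
  norm_num [Nat.factorial]

/-! ### the cross term -/

/-- limit integrand of the cross term -/
def Fc (u : Fin 6 → ℝ) : ℝ := Gd ![5, 10, 10, 1, 2, 2] u *
  ((gA (u 0 + u 1 + u 2) * (3 - 4 * u 3) * Hv (u 0 + u 1 + u 2) * Hv (u 3)) * Hq (u 1 + u 4) *
    Hq (u 2 + u 5) * (1 - u 0 - u 3 - u 4 - u 5))

lemma Fc_meas : Measurable Fc := by
  unfold Fc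
  refine (Gd_meas _).mul ?_
  have m (i : Fin 6) : Measurable (fun u : Fin 6 → ℝ => u i) := measurable_pi_apply i
  exact ((((((gA_meas.comp (((m 0).add (m 1)).add (m 2))).mul
    (measurable_const.sub (measurable_const.mul (m 3)))).mul
    (Hv_meas.comp (((m 0).add (m 1)).add (m 2)))).mul (Hv_meas.comp (m 3))).mul
    (Hq_meas.comp ((m 1).add (m 4)))).mul (Hq_meas.comp ((m 2).add (m 5)))).mul
    ((((measurable_const.sub (m 0)).sub (m 3)).sub (m 4)).sub (m 5))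

lemma Gd6 (u : Fin 6 → ℝ) : Gd ![5, 10, 10, 1, 2, 2] u =
    if 0 < u 0 ∧ 0 < u 1 ∧ 0 < u 2 ∧ 0 < u 3 ∧ 0 < u 4 ∧ 0 < u 5 then
      u 0 ^ 4 / 24 * (u 1 ^ 9 / 362880) * (u 2 ^ 9 / 362880) * u 4 * u 5 else 0 := by
  unfold Gd
  rw [Fin.prod_univ_six]
  have e0 : (![5, 10, 10, 1, 2, 2] : Fin 6 → ℝ) 0 = 5 := rfl
  have e1 : (![5, 10, 10, 1, 2, 2] : Fin 6 → ℝ) 1 = 10 := rfl
  have e2 : (![5, 10, 10, 1, 2, 2] : Fin 6 → ℝ) 2 = 10 := rfl
  have e3 : (![5, 10, 10, 1, 2, 2] : Fin 6 → ℝ) 3 = 1 := rfl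
  have e4 : (![5, 10, 10, 1, 2, 2] : Fin 6 → ℝ) 4 = 2 := rfl
  have e5 : (![5, 10, 10, 1, 2, 2] : Fin 6 → ℝ) 5 = 2 := rfl
  rw [e0, e1, e2, e3, e4, e5, gd5, gd10, gd10, gd1, gd2, gd2]
  by_cases h0 : 0 < u 0 <;> by_cases h1 : 0 < u 1 <;> by_cases h2 : 0 < u 2 <;>
    by_cases h3 : 0 < u 3 <;> by_cases h4 : 0 < u 4 <;> by_cases h5 : 0 < u 5 <;>
      simp [h0, h1, h2, h3, h4, h5]

lemma cross_dct : Tendsto JAc (𝓝[>] 0) (𝓝 (∫ u, Fc u)) ∧ Nice Fc := by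
  refine dct (fun ε u => Gd ![5, 10, 10, 1, 2, 2] u *
    (FA ε (u 0 + u 1 + u 2) (u 3) * eq4 ε (u 1 + u 4) * eq4 ε (u 2 + u 5) *
      (1 - u 0 - u 3 - u 4 - u 5))) Fc
    (fun u => u 0 ^ 4 / 24 * (u 1 ^ 9 / 362880) * (u 2 ^ 9 / 362880) * u 4 * u 5 *
      (gA (u 0 + u 1 + u 2) * (3 - 4 * u 3) * (1 - u 0 - u 3 - u 4 - u 5))) ?_ Fc_meas ?_ ?_ ?_
  · intro ε
    refine (Gd_meas _).mul ?_
    have m (i : Fin 6) : Measurable (fun u : Fin 6 → ℝ => u i) := measurable_pi_apply i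
    unfold FA
    exact ((((((gA_meas.comp (((m 0).add (m 1)).add (m 2))).mul
      (measurable_const.sub (measurable_const.mul (m 3)))).mul
      ((et_meas ε).comp (((m 0).add (m 1)).add (m 2)))).mul ((et_meas ε).comp (m 3))).mul
      ((eq4_meas ε).comp ((m 1).add (m 4)))).mul ((eq4_meas ε).comp ((m 2).add (m 5)))).mul
      ((((measurable_const.sub (m 0)).sub (m 3)).sub (m 4)).sub (m 5))
  · unfold gA
    fun_prop
  · intro ε hε u
    rw [Gd6]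
    have hFA : FA ε (u 0 + u 1 + u 2) (u 3) = gA (u 0 + u 1 + u 2) * (3 - 4 * u 3) *
      et ε (u 0 + u 1 + u 2) * et ε (u 3) := rfl
    rw [hFA]
    by_cases h0 : 0 < u 0 ∧ 0 < u 1 ∧ 0 < u 2 ∧ 0 < u 3 ∧ 0 < u 4 ∧ 0 < u 5
    · rw [if_pos h0]
      obtain ⟨p0, p1, p2, p3, p4, p5⟩ := h0
      have e1 : 0 ≤ u 0 ^ 4 / 24 * (u 1 ^ 9 / 362880) * (u 2 ^ 9 / 362880) * u 4 * u 5 := by positivity
      by_cases h : ∀ i, 0 < u i ∧ u i < 1 / 2
      · rw [if_pos h, abs_mul (u 0 ^ 4 / 24 * (u 1 ^ 9 / 362880) * (u 2 ^ 9 / 362880) * u 4 * u 5),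
          abs_mul (u 0 ^ 4 / 24 * (u 1 ^ 9 / 362880) * (u 2 ^ 9 / 362880) * u 4 * u 5),
          abs_of_nonneg e1]
        refine mul_le_mul_of_nonneg_left ?_ e1
        rw [abs_mul _ (1 - u 0 - u 3 - u 4 - u 5), abs_mul _ (1 - u 0 - u 3 - u 4 - u 5)]
        refine mul_le_mul_of_nonneg_right ?_ (abs_nonneg _)
        rw [abs_mul _ (eq4 ε (u 2 + u 5)), abs_mul _ (eq4 ε (u 1 + u 4)), abs_mul _ (et ε (u 3)),
          abs_mul _ (et ε (u 0 + u 1 + u 2)), abs_of_nonneg (et_nonneg _ _),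
          abs_of_nonneg (et_nonneg _ _), abs_of_nonneg (eq4_nonneg _ _),
          abs_of_nonneg (eq4_nonneg _ _)]
        have a1 := et_nonneg ε (u 0 + u 1 + u 2)
        have a2 := et_le_one ε (u 0 + u 1 + u 2)
        have b1 := et_nonneg ε (u 3)
        have b2 := et_le_one ε (u 3)
        have c1 := eq4_nonneg ε (u 1 + u 4)
        have c2 := eq4_le_one ε (u 1 + u 4)
        have d1 := eq4_nonneg ε (u 2 + u 5)
        have d2 := eq4_le_one ε (u 2 + u 5)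
        calc |gA (u 0 + u 1 + u 2) * (3 - 4 * u 3)| * et ε (u 0 + u 1 + u 2) * et ε (u 3) *
              eq4 ε (u 1 + u 4) * eq4 ε (u 2 + u 5)
            ≤ |gA (u 0 + u 1 + u 2) * (3 - 4 * u 3)| * 1 * 1 * 1 * 1 := by gcongr
          _ = _ := by ring
      · rw [if_neg h]
        refine le_of_eq ?_
        rw [abs_eq_zero]
        rcases lt_or_ge (u 0 + u 1 + u 2) (1 / 2) with h1 | h1
        · rcases lt_or_ge (u 3) (1 / 2) with h2 | h2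
          · rcases lt_or_ge (u 1 + u 4) (1 / 4) with h3 | h3
            · rcases lt_or_ge (u 2 + u 5) (1 / 4) with h4 | h4
              · exfalso
                apply h
                intro i
                fin_cases i
                · exact ⟨p0, by simp only [Fin.zero_eta]; linarith⟩
                · exact ⟨p1, by simp only [Fin.mk_one]; linarith⟩
                · exact ⟨p2, by simp only [Fin.reduceFinMk]; linarith⟩
                · exact ⟨p3, h2⟩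
                · exact ⟨p4, by simp only [Fin.reduceFinMk]; linarith⟩
                · exact ⟨p5, by simp only [Fin.reduceFinMk]; linarith⟩
              · rw [eq4_zero hε h4]; ring
            · rw [eq4_zero hε h3]; ring
          · rw [et_zero hε h2]; ring
        · rw [et_zero hε h1]; ring
    · rw [if_neg h0, zero_mul, abs_zero]
      split_ifs
      · exact abs_nonneg _
      · exact le_refl _
  · intro u
    filter_upwards [et_ev (u 0 + u 1 + u 2), et_ev (u 3), eq4_ev (u 1 + u 4), eq4_ev (u 2 + u 5)]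
      with ε h1 h2 h3 h4
    unfold Fc FA gA
    rw [h1, h2, h3, h4]

lemma ins6 (x0 x1 x2 x3 x4 x5 : ℝ) (y : Fin 0 → ℝ) :
    (1 : Fin 6).insertNth x1 ((1 : Fin 5).insertNth x2 ((0 : Fin 4).insertNth x0
      ((0 : Fin 3).insertNth x3 ((0 : Fin 2).insertNth x4 ((0 : Fin 1).insertNth x5 y))))) =
      (![x0, x1, x2, x3, x4, x5] : Fin 6 → ℝ) := by
  symm
  rw [Fin.eq_insertNth_iff]
  refine ⟨rfl, ?_⟩
  symm
  rw [Fin.insertNth_eq_iff]
  refine ⟨rfl, ?_⟩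
  funext j
  fin_cases j
  · rfl
  · rfl
  · rfl
  · rfl

lemma Fc_val (x0 x1 x2 x3 x4 x5 : ℝ) : Fc ![x0, x1, x2, x3, x4, x5] =
    if (0 < x1 ∧ x1 < 1 / 4) ∧ (0 < x2 ∧ x2 < 1 / 4) ∧ (0 < x0 ∧ x0 < 1 / 2 - x1 - x2) ∧
      (0 < x3 ∧ x3 < 1 / 2) ∧ (0 < x4 ∧ x4 < 1 / 4 - x1) ∧ (0 < x5 ∧ x5 < 1 / 4 - x2) then
    x0 ^ 4 / 24 * (x1 ^ 9 / 362880) * (x2 ^ 9 / 362880) * (gA (x0 + x1 + x2) * (3 - 4 * x3) * x4) *
      (x5 * (1 - x0 - x3 - x4 - x5)) else 0 := by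
  unfold Fc
  rw [Gd6]
  have e0 : (![x0, x1, x2, x3, x4, x5] : Fin 6 → ℝ) 0 = x0 := rfl
  have e1 : (![x0, x1, x2, x3, x4, x5] : Fin 6 → ℝ) 1 = x1 := rfl
  have e2 : (![x0, x1, x2, x3, x4, x5] : Fin 6 → ℝ) 2 = x2 := rfl
  have e3 : (![x0, x1, x2, x3, x4, x5] : Fin 6 → ℝ) 3 = x3 := rfl
  have e4 : (![x0, x1, x2, x3, x4, x5] : Fin 6 → ℝ) 4 = x4 := rfl
  have e5 : (![x0, x1, x2, x3, x4, x5] : Fin 6 → ℝ) 5 = x5 := rfl
  rw [e0, e1, e2, e3, e4, e5]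
  unfold Hv Hq
  by_cases h : (0 < x1 ∧ x1 < 1 / 4) ∧ (0 < x2 ∧ x2 < 1 / 4) ∧ (0 < x0 ∧ x0 < 1 / 2 - x1 - x2) ∧
      (0 < x3 ∧ x3 < 1 / 2) ∧ (0 < x4 ∧ x4 < 1 / 4 - x1) ∧ (0 < x5 ∧ x5 < 1 / 4 - x2)
  · rw [if_pos h]
    obtain ⟨⟨a1, a2⟩, ⟨a3, a4⟩, ⟨a5, a6⟩, ⟨a7, a8⟩, ⟨b1, b2⟩, b3, b4⟩ := h
    rw [if_pos ⟨a5, a1, a3, a7, b1, b3⟩, if_pos (show x0 + x1 + x2 < 1 / 2 by linarith), if_pos a8,
      if_pos (show x1 + x4 < 1 / 4 by linarith), if_pos (show x2 + x5 < 1 / 4 by linarith)]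
    ring
  · rw [if_neg h]
    by_cases h0 : 0 < x0 ∧ 0 < x1 ∧ 0 < x2 ∧ 0 < x3 ∧ 0 < x4 ∧ 0 < x5
    · rw [if_pos h0]
      by_cases h1 : x0 + x1 + x2 < 1 / 2
      · by_cases h2 : x3 < 1 / 2
        · by_cases h3 : x1 + x4 < 1 / 4
          · by_cases h4 : x2 + x5 < 1 / 4
            · exfalso
              apply h
              obtain ⟨b0, b1, b2, b3, b4, b5⟩ := h0
              refine ⟨⟨b1, by linarith⟩, ⟨b2, by linarith⟩, ⟨b0, by linarith⟩, ⟨b3, h2⟩,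
                ⟨b4, by linarith⟩, ⟨b5, by linarith⟩⟩
            · rw [if_neg h4]; ring
          · rw [if_neg h3]; ring
        · rw [if_neg h2]; ring
      · rw [if_neg h1]; ring
    · rw [if_neg h0, zero_mul]

lemma step5 (x0 x1 x2 x3 x4 : ℝ) : ∫ x5 : ℝ, Fc ![x0, x1, x2, x3, x4, x5] =
    if (0 < x1 ∧ x1 < 1 / 4) ∧ (0 < x2 ∧ x2 < 1 / 4) ∧ (0 < x0 ∧ x0 < 1 / 2 - x1 - x2) ∧
      (0 < x3 ∧ x3 < 1 / 2) ∧ (0 < x4 ∧ x4 < 1 / 4 - x1) then
    x0 ^ 4 / 24 * (x1 ^ 9 / 362880) * (x2 ^ 9 / 362880) * (gA (x0 + x1 + x2) * (3 - 4 * x3)) *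
      (x4 * ((1 - x0 - x3 - x4) * ((1 / 4 - x2) ^ 2 / 2) - (1 / 4 - x2) ^ 3 / 3)) else 0 := by
  by_cases h : (0 < x1 ∧ x1 < 1 / 4) ∧ (0 < x2 ∧ x2 < 1 / 4) ∧ (0 < x0 ∧ x0 < 1 / 2 - x1 - x2) ∧
      (0 < x3 ∧ x3 < 1 / 2) ∧ (0 < x4 ∧ x4 < 1 / 4 - x1)
  · rw [if_pos h]
    rw [cutint (c := 1 / 4 - x2) (g := fun x5 => x0 ^ 4 / 24 * (x1 ^ 9 / 362880) *
      (x2 ^ 9 / 362880) * (gA (x0 + x1 + x2) * (3 - 4 * x3) * x4) * (x5 * (1 - x0 - x3 - x4 - x5)))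
      (by linarith [h.2.1.2]) (fun x5 => by rw [Fc_val]; simp only [h, true_and, and_self])]
    rw [intervalIntegral.integral_const_mul]
    have e : ∀ x5 : ℝ, x5 * (1 - x0 - x3 - x4 - x5) =
        ∑ i ∈ range 3, (fun i : ℕ => ([0, 1 - x0 - x3 - x4, -1] : List ℝ).getD i 0) i * x5 ^ i := by
      intro x5
      simp [sum_range_succ]
      ring
    simp only [e]
    have hp := polyint 3 (fun i : ℕ => ([0, 1 - x0 - x3 - x4, -1] : List ℝ).getD i 0) (1 / 4 - x2)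
    rw [hp]
    simp [sum_range_succ]
    ring
  · rw [if_neg h]
    have : ∀ x5, Fc ![x0, x1, x2, x3, x4, x5] = 0 := by
      intro x5
      rw [Fc_val, if_neg (fun h' => h ⟨h'.1, h'.2.1, h'.2.2.1, h'.2.2.2.1, h'.2.2.2.2.1⟩)]
    simp only [this, integral_zero]

lemma step4 (x0 x1 x2 x3 : ℝ) : ∫ x4 : ℝ, ∫ x5 : ℝ, Fc ![x0, x1, x2, x3, x4, x5] =
    if (0 < x1 ∧ x1 < 1 / 4) ∧ (0 < x2 ∧ x2 < 1 / 4) ∧ (0 < x0 ∧ x0 < 1 / 2 - x1 - x2) ∧
      (0 < x3 ∧ x3 < 1 / 2) then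
    x0 ^ 4 / 24 * (x1 ^ 9 / 362880) * (x2 ^ 9 / 362880) * gA (x0 + x1 + x2) *
      ((3 - 4 * x3) * ((1 - x0 - x3) * ((1 / 4 - x1) ^ 2 * (1 / 4 - x2) ^ 2 / 4) -
        ((1 / 4 - x1) ^ 3 * (1 / 4 - x2) ^ 2 / 6 + (1 / 4 - x1) ^ 2 * (1 / 4 - x2) ^ 3 / 6)))
      else 0 := by
  simp only [step5]
  by_cases h : (0 < x1 ∧ x1 < 1 / 4) ∧ (0 < x2 ∧ x2 < 1 / 4) ∧ (0 < x0 ∧ x0 < 1 / 2 - x1 - x2) ∧
      (0 < x3 ∧ x3 < 1 / 2)
  · rw [if_pos h]
    rw [cutint (c := 1 / 4 - x1) (g := fun x4 => x0 ^ 4 / 24 * (x1 ^ 9 / 362880) *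
      (x2 ^ 9 / 362880) * (gA (x0 + x1 + x2) * (3 - 4 * x3)) *
      (x4 * ((1 - x0 - x3 - x4) * ((1 / 4 - x2) ^ 2 / 2) - (1 / 4 - x2) ^ 3 / 3)))
      (by linarith [h.1.2]) (fun x4 => by simp only [h, true_and, and_self])]
    rw [intervalIntegral.integral_const_mul]
    have e : ∀ x4 : ℝ, x4 * ((1 - x0 - x3 - x4) * ((1 / 4 - x2) ^ 2 / 2) - (1 / 4 - x2) ^ 3 / 3) =
        ∑ i ∈ range 3, (fun i : ℕ => ([0, (1 - x0 - x3) * ((1 / 4 - x2) ^ 2 / 2) -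
          (1 / 4 - x2) ^ 3 / 3, -((1 / 4 - x2) ^ 2 / 2)] : List ℝ).getD i 0) i * x4 ^ i := by
      intro x4
      simp [sum_range_succ]
      ring
    simp only [e]
    have hp := polyint 3 (fun i : ℕ => ([0, (1 - x0 - x3) * ((1 / 4 - x2) ^ 2 / 2) -
          (1 / 4 - x2) ^ 3 / 3, -((1 / 4 - x2) ^ 2 / 2)] : List ℝ).getD i 0) (1 / 4 - x1)
    rw [hp]
    simp [sum_range_succ]
    ring
  · rw [if_neg h]
    have : ∀ x4 : ℝ, (if (0 < x1 ∧ x1 < 1 / 4) ∧ (0 < x2 ∧ x2 < 1 / 4) ∧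
      (0 < x0 ∧ x0 < 1 / 2 - x1 - x2) ∧ (0 < x3 ∧ x3 < 1 / 2) ∧ (0 < x4 ∧ x4 < 1 / 4 - x1) then
        x0 ^ 4 / 24 * (x1 ^ 9 / 362880) * (x2 ^ 9 / 362880) * (gA (x0 + x1 + x2) * (3 - 4 * x3)) *
      (x4 * ((1 - x0 - x3 - x4) * ((1 / 4 - x2) ^ 2 / 2) - (1 / 4 - x2) ^ 3 / 3)) else 0) = 0 := by
      intro x4
      rw [if_neg (fun h' => h ⟨h'.1, h'.2.1, h'.2.2.1, h'.2.2.2.1⟩)]
    simp only [this, integral_zero]

lemma step3 (x0 x1 x2 : ℝ) : ∫ x3 : ℝ, ∫ x4 : ℝ, ∫ x5 : ℝ, Fc ![x0, x1, x2, x3, x4, x5] =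
    if (0 < x1 ∧ x1 < 1 / 4) ∧ (0 < x2 ∧ x2 < 1 / 4) ∧ (0 < x0 ∧ x0 < 1 / 2 - x1 - x2) then
    x0 ^ 4 / 24 * (x1 ^ 9 / 362880) * (x2 ^ 9 / 362880) * gA (x0 + x1 + x2) *
      ((19 / 24 - x0) * ((1 / 4 - x1) ^ 2 * (1 / 4 - x2) ^ 2 / 4) -
        ((1 / 4 - x1) ^ 3 * (1 / 4 - x2) ^ 2 / 6 + (1 / 4 - x1) ^ 2 * (1 / 4 - x2) ^ 3 / 6))
      else 0 := by
  simp only [step4]
  by_cases h : (0 < x1 ∧ x1 < 1 / 4) ∧ (0 < x2 ∧ x2 < 1 / 4) ∧ (0 < x0 ∧ x0 < 1 / 2 - x1 - x2)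
  · rw [if_pos h]
    obtain ⟨X, hX⟩ : ∃ X : ℝ, X = (1 / 4 - x1) ^ 2 * (1 / 4 - x2) ^ 2 / 4 := ⟨_, rfl⟩
    obtain ⟨Y, hY⟩ : ∃ Y : ℝ, Y = (1 / 4 - x1) ^ 3 * (1 / 4 - x2) ^ 2 / 6 +
      (1 / 4 - x1) ^ 2 * (1 / 4 - x2) ^ 3 / 6 := ⟨_, rfl⟩
    rw [← hX, ← hY]
    rw [cutint (c := 1 / 2) (g := fun x3 => x0 ^ 4 / 24 * (x1 ^ 9 / 362880) *
      (x2 ^ 9 / 362880) * gA (x0 + x1 + x2) * ((3 - 4 * x3) * ((1 - x0 - x3) * X - Y)))
      (by norm_num) (fun x3 => by simp only [h, true_and, and_self])]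
    rw [intervalIntegral.integral_const_mul]
    congr 1
    have e : ∀ x3 : ℝ, (3 - 4 * x3) * ((1 - x0 - x3) * X - Y) =
        ∑ i ∈ range 3, (fun i : ℕ => ([3 * ((1 - x0) * X - Y), -3 * X - 4 * ((1 - x0) * X - Y),
          4 * X] : List ℝ).getD i 0) i * x3 ^ i := by
      intro x3
      simp [sum_range_succ]
      ring
    simp only [e]
    have hp := polyint 3 (fun i : ℕ => ([3 * ((1 - x0) * X - Y), -3 * X - 4 * ((1 - x0) * X - Y),
          4 * X] : List ℝ).getD i 0) (1 / 2)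
    rw [hp]
    simp [sum_range_succ]
    ring
  · rw [if_neg h]
    have : ∀ x3 : ℝ, (if (0 < x1 ∧ x1 < 1 / 4) ∧ (0 < x2 ∧ x2 < 1 / 4) ∧
      (0 < x0 ∧ x0 < 1 / 2 - x1 - x2) ∧ (0 < x3 ∧ x3 < 1 / 2) then
    x0 ^ 4 / 24 * (x1 ^ 9 / 362880) * (x2 ^ 9 / 362880) * gA (x0 + x1 + x2) *
      ((3 - 4 * x3) * ((1 - x0 - x3) * ((1 / 4 - x1) ^ 2 * (1 / 4 - x2) ^ 2 / 4) -
        ((1 / 4 - x1) ^ 3 * (1 / 4 - x2) ^ 2 / 6 + (1 / 4 - x1) ^ 2 * (1 / 4 - x2) ^ 3 / 6)))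
      else 0) = 0 := by
      intro x3
      rw [if_neg (fun h' => h ⟨h'.1, h'.2.1, h'.2.2.1⟩)]
    simp only [this, integral_zero]

/-- polynomial after the integration over `u 0`; `A = 1/4 - u 1`, `B = 1/4 - u 2` -/
def H0 (A B : ℝ) : ℝ :=
  ((19 / 24 - (A + B)) * (A ^ 2 * B ^ 2 / 4) - (A ^ 3 * B ^ 2 / 6 + A ^ 2 * B ^ 3 / 6)) *
      ((A + B) ^ 5 / 120) +
    (10 * ((19 / 24 - (A + B)) * (A ^ 2 * B ^ 2 / 4) - (A ^ 3 * B ^ 2 / 6 + A ^ 2 * B ^ 3 / 6)) +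
      A ^ 2 * B ^ 2 / 4) * ((A + B) ^ 6 / 720) +
    (500 * ((19 / 24 - (A + B)) * (A ^ 2 * B ^ 2 / 4) - (A ^ 3 * B ^ 2 / 6 + A ^ 2 * B ^ 3 / 6)) +
      10 * (A ^ 2 * B ^ 2 / 4)) * (2 * (A + B) ^ 7 / 5040) +
    500 * (A ^ 2 * B ^ 2 / 4) * (6 * (A + B) ^ 8 / 40320)

lemma step0 (x1 x2 : ℝ) : ∫ x0 : ℝ, ∫ x3 : ℝ, ∫ x4 : ℝ, ∫ x5 : ℝ, Fc ![x0, x1, x2, x3, x4, x5] =
    if (0 < x1 ∧ x1 < 1 / 4) ∧ (0 < x2 ∧ x2 < 1 / 4) then
    (x1 ^ 9 / 362880) * (x2 ^ 9 / 362880) * H0 (1 / 4 - x1) (1 / 4 - x2) else 0 := by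
  simp only [step3]
  by_cases h : (0 < x1 ∧ x1 < 1 / 4) ∧ (0 < x2 ∧ x2 < 1 / 4)
  · rw [if_pos h]
    obtain ⟨A, hA⟩ : ∃ A : ℝ, A = 1 / 4 - x1 := ⟨_, rfl⟩
    obtain ⟨B, hB⟩ : ∃ B : ℝ, B = 1 / 4 - x2 := ⟨_, rfl⟩
    have hc : 1 / 2 - x1 - x2 = A + B := by rw [hA, hB]; ring
    have hg : ∀ x0 : ℝ, gA (x0 + x1 + x2) = 1 + 10 * (A + B - x0) + 500 * (A + B - x0) ^ 2 := by
      intro x0
      unfold gA
      rw [hA, hB]
      ring
    rw [← hA, ← hB]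
    simp only [hc, hg]
    rw [cutint (c := A + B) (g := fun x0 => x0 ^ 4 / 24 * (x1 ^ 9 / 362880) *
      (x2 ^ 9 / 362880) * (1 + 10 * (A + B - x0) + 500 * (A + B - x0) ^ 2) *
      ((19 / 24 - x0) * (A ^ 2 * B ^ 2 / 4) - (A ^ 3 * B ^ 2 / 6 + A ^ 2 * B ^ 3 / 6)))
      (by rw [hA, hB]; linarith [h.1.2, h.2.2]) (fun x0 => by simp only [h, true_and, and_self])]
    have e : ∀ x0 : ℝ, x0 ^ 4 / 24 * (x1 ^ 9 / 362880) *
      (x2 ^ 9 / 362880) * (1 + 10 * (A + B - x0) + 500 * (A + B - x0) ^ 2) *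
      ((19 / 24 - x0) * (A ^ 2 * B ^ 2 / 4) - (A ^ 3 * B ^ 2 / 6 + A ^ 2 * B ^ 3 / 6)) =
      ((x1 ^ 9 / 362880) * (x2 ^ 9 / 362880) / 24) * ∑ i ∈ range 4, (fun i : ℕ =>
        ([(19 / 24 - (A + B)) * (A ^ 2 * B ^ 2 / 4) - (A ^ 3 * B ^ 2 / 6 + A ^ 2 * B ^ 3 / 6),
          10 * ((19 / 24 - (A + B)) * (A ^ 2 * B ^ 2 / 4) - (A ^ 3 * B ^ 2 / 6 + A ^ 2 * B ^ 3 / 6)) +
            A ^ 2 * B ^ 2 / 4,
          500 * ((19 / 24 - (A + B)) * (A ^ 2 * B ^ 2 / 4) - (A ^ 3 * B ^ 2 / 6 + A ^ 2 * B ^ 3 / 6)) +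
            10 * (A ^ 2 * B ^ 2 / 4),
          500 * (A ^ 2 * B ^ 2 / 4)] : List ℝ).getD i 0) i * (x0 ^ 4 * (A + B - x0) ^ i) := by
      intro x0
      obtain ⟨w, hw⟩ : ∃ w : ℝ, w = A + B - x0 := ⟨_, rfl⟩
      have hx0 : x0 = A + B - w := by rw [hw]; ring
      obtain ⟨X, hX⟩ : ∃ X : ℝ, X = A ^ 2 * B ^ 2 / 4 := ⟨_, rfl⟩
      obtain ⟨Y, hY⟩ : ∃ Y : ℝ, Y = A ^ 3 * B ^ 2 / 6 + A ^ 2 * B ^ 3 / 6 := ⟨_, rfl⟩
      rw [← hw, ← hX, ← hY]
      have h19 : 19 / 24 - x0 = 19 / 24 - (A + B) + w := by rw [hw]; ring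
      rw [h19]
      simp only [sum_range_succ, range_zero, sum_empty, List.getD_cons_zero, List.getD_cons_succ]
      ring
    simp only [e]
    rw [intervalIntegral.integral_const_mul, bsum]
    unfold H0
    simp only [sum_range_succ, range_zero, sum_empty, List.getD_cons_zero, List.getD_cons_succ]
    norm_num [Nat.factorial]
    ring
  · rw [if_neg h]
    have : ∀ x0 : ℝ, (if (0 < x1 ∧ x1 < 1 / 4) ∧ (0 < x2 ∧ x2 < 1 / 4) ∧
      (0 < x0 ∧ x0 < 1 / 2 - x1 - x2) then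
    x0 ^ 4 / 24 * (x1 ^ 9 / 362880) * (x2 ^ 9 / 362880) * gA (x0 + x1 + x2) *
      ((19 / 24 - x0) * ((1 / 4 - x1) ^ 2 * (1 / 4 - x2) ^ 2 / 4) -
        ((1 / 4 - x1) ^ 3 * (1 / 4 - x2) ^ 2 / 6 + (1 / 4 - x1) ^ 2 * (1 / 4 - x2) ^ 3 / 6))
      else 0) = 0 := by
      intro x0
      rw [if_neg (fun h' => h ⟨h'.1, h'.2.1⟩)]
    simp only [this, integral_zero]

/-- coefficients (in `B`) of `H0 A B / 9!` -/
def cB (A : ℝ) (i : ℕ) : ℝ := ([0, 0, (19 / 4180377600 : ℝ) * A ^ 7 + (-13 / 12541132800 : ℝ) * A ^ 8 + (139 / 1463132160 : ℝ) * A ^ 9 + (-155 / 877879296 : ℝ) * A ^ 10, (19 / 836075520 : ℝ) * A ^ 6 + (-13 / 2090188800 : ℝ) * A ^ 7 + (139 / 209018880 : ℝ) * A ^ 8 + (-155 / 109734912 : ℝ) * A ^ 9, (19 / 418037760 : ℝ) * A ^ 5 + (-13 / 836075520 : ℝ) * A ^ 6 + (139 / 69672960 : ℝ) * A ^ 7 + (-155 / 31352832 : ℝ) * A ^ 8, (19 / 418037760 : ℝ) * A ^ 4 + (-13 / 627056640 : ℝ)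 * A ^ 5 + (139 / 41803776 : ℝ) * A ^ 6 + (-155 / 15676416 : ℝ) * A ^ 7, (19 / 836075520 : ℝ) * A ^ 3 + (-13 / 836075520 : ℝ) * A ^ 4 + (139 / 41803776 : ℝ) * A ^ 5 + (-775 / 62705664 : ℝ) * A ^ 6, (19 / 4180377600 : ℝ) * A ^ 2 + (-13 / 2090188800 : ℝ) * A ^ 3 + (139 / 69672960 : ℝ) * A ^ 4 + (-155 / 15676416 : ℝ) * A ^ 5, (-13 / 12541132800 : ℝ) * A ^ 2 + (139 / 209018880 : ℝ) * A ^ 3 + (-155 / 31352832 : ℝ) * A ^ 4, (139 / 1463132160 : ℝ) * A ^ 2 + (-155 / 109734912 : ℝ) * A ^ 3, (-155 / 877879296 : ℝ) * A ^ 2] : List ℝ).getD i 0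

/-- polynomial after the integration over `u 2` -/
def K0 (A : ℝ) : ℝ := (129449 / 80250121416893901244150579200 : ℝ) * A ^ 2 + (675139 / 8359387647593114712932352000 : ℝ) * A ^ 3 + (118597 / 65995165638893010891571200 : ℝ) * A ^ 4 + (252761 / 10999194273148835148595200 : ℝ) * A ^ 5 + (6463 / 35945079324015801139200 : ℝ) * A ^ 6 + (187 / 229762580906351001600 : ℝ) * A ^ 7 + (2419 / 1579617743731163136000 : ℝ) * A ^ 8 + (257 / 210615699164155084800 : ℝ) * A ^ 9 + (-31 / 1944144915361431552 : ℝ) * A ^ 10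

/-- coefficients of `K0 A / 9!` -/
def cA (i : ℕ) : ℝ := ([0, 0, (129449 / 29121164059762458883477362180096000 : ℝ), (675139 / 3033454589558589467028891893760000 : ℝ), (118597 / 23948325707041495792333357056000 : ℝ), (252761 / 3991387617840249298722226176000 : ℝ), (6463 / 13043750385098853917392896000 : ℝ), (187 / 83376245359296651460608000 : ℝ), (2419 / 573211686845164478791680000 : ℝ), (257 / 76428224912688597172224000 : ℝ), (-31 / 705491306886356281589760 : ℝ)] : List ℝ).getD i 0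

lemma H0_exp (A B y : ℝ) : y / 362880 * H0 A B = ∑ i ∈ range 11, cB A i * (y * B ^ i) := by
  unfold H0 cB
  simp only [sum_range_succ, range_zero, sum_empty, List.getD_cons_zero, List.getD_cons_succ]
  ring

lemma K0_eq (A : ℝ) : ∑ i ∈ range 11, cB A i *
    ((((9 : ℕ).factorial : ℝ) * (i.factorial : ℝ)) / ((9 + i + 1).factorial : ℝ) *
      (1 / 4) ^ (9 + i + 1)) = K0 A := by
  unfold K0 cB
  simp only [sum_range_succ, range_zero, sum_empty, List.getD_cons_zero, List.getD_cons_succ]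
  norm_num [Nat.factorial]
  ring

lemma step2 (x1 : ℝ) : ∫ x2 : ℝ, ∫ x0 : ℝ, ∫ x3 : ℝ, ∫ x4 : ℝ, ∫ x5 : ℝ,
    Fc ![x0, x1, x2, x3, x4, x5] =
    if 0 < x1 ∧ x1 < 1 / 4 then x1 ^ 9 / 362880 * K0 (1 / 4 - x1) else 0 := by
  simp only [step0]
  by_cases h : 0 < x1 ∧ x1 < 1 / 4
  · rw [if_pos h]
    rw [cutint (c := 1 / 4) (g := fun x2 => (x1 ^ 9 / 362880) * (x2 ^ 9 / 362880) *
      H0 (1 / 4 - x1) (1 / 4 - x2)) (by norm_num) (fun x2 => by simp only [h, true_and, and_self])]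
    have e : ∀ x2 : ℝ, (x1 ^ 9 / 362880) * (x2 ^ 9 / 362880) * H0 (1 / 4 - x1) (1 / 4 - x2) =
        (x1 ^ 9 / 362880) * ∑ i ∈ range 11, cB (1 / 4 - x1) i * (x2 ^ 9 * (1 / 4 - x2) ^ i) := by
      intro x2
      rw [mul_assoc, H0_exp]
    simp only [e]
    rw [intervalIntegral.integral_const_mul, bsum, K0_eq]
  · rw [if_neg h]
    have : ∀ x2 : ℝ, (if (0 < x1 ∧ x1 < 1 / 4) ∧ (0 < x2 ∧ x2 < 1 / 4) then
    (x1 ^ 9 / 362880) * (x2 ^ 9 / 362880) * H0 (1 / 4 - x1) (1 / 4 - x2) else 0) = 0 := by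
      intro x2
      rw [if_neg (fun h' => h h'.1)]
    simp only [this, integral_zero]

lemma cross_val : ∫ u, Fc u =
    408070242103939482375 / 144115188075855872 / (Nat.factorial 36 : ℝ) := by
  have hN := cross_dct.2
  have h1 : ∫ u, Fc u = ∫ x1 : ℝ, ∫ x2 : ℝ, ∫ x0 : ℝ, ∫ x3 : ℝ, ∫ x4 : ℝ, ∫ x5 : ℝ,
      Fc ![x0, x1, x2, x3, x4, x5] := by
    rw [fub hN 1]
    refine integral_congr_ae (Eventually.of_forall fun x1 => ?_)
    simp only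
    have n1 := hN.slice 1 x1
    rw [fub n1 1]
    refine integral_congr_ae (Eventually.of_forall fun x2 => ?_)
    simp only
    have n2 := n1.slice 1 x2
    rw [fub n2 0]
    refine integral_congr_ae (Eventually.of_forall fun x0 => ?_)
    simp only
    have n3 := n2.slice 0 x0
    rw [fub n3 0]
    refine integral_congr_ae (Eventually.of_forall fun x3 => ?_)
    simp only
    have n4 := n3.slice 0 x3
    rw [fub n4 0]
    refine integral_congr_ae (Eventually.of_forall fun x4 => ?_)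
    simp only
    have n5 := n4.slice 0 x4
    rw [fub n5 0]
    refine integral_congr_ae (Eventually.of_forall fun x5 => ?_)
    simp only
    rw [int0 _ Fin.elim0, ins6]
  rw [h1]
  rw [cutint (c := 1 / 4) (by norm_num) step2]
  have e : ∀ x1 : ℝ, x1 ^ 9 / 362880 * K0 (1 / 4 - x1) =
      ∑ i ∈ range 11, cA i * (x1 ^ 9 * (1 / 4 - x1) ^ i) := by
    intro x1
    obtain ⟨A, hA⟩ : ∃ A : ℝ, A = 1 / 4 - x1 := ⟨_, rfl⟩
    rw [← hA]
    unfold K0 cA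
    simp only [sum_range_succ, range_zero, sum_empty, List.getD_cons_zero, List.getD_cons_succ]
    ring
  simp only [e]
  rw [bsum]
  unfold cA
  simp only [sum_range_succ, range_zero, sum_empty, List.getD_cons_zero, List.getD_cons_succ]
  norm_num [Nat.factorial]

/-- N1 -/
theorem JA_lim :
    Tendsto JAn (𝓝[>] 0) (𝓝 (162761294670975 / 32768 / (Nat.factorial 36 : ℝ))) ∧
    Tendsto JAc (𝓝[>] 0) (𝓝 (408070242103939482375 / 144115188075855872 / (Nat.factorial 36 : ℝ))) := by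
  refine ⟨?_, ?_⟩
  · rw [← norm_val]
    exact norm_dct.1
  · rw [← cross_val]
    exact cross_dct.1

end

end Pool.Agent.H491R2.TMN1
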