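import Pool.Agent.H491R2.TM_N1

set_option autoImplicit false

/-!
Task N2 of the twelfth moment project: exact values of the main terms of `C2`.
-/

namespace Pool.Agent.H491R2.TMN2

open Finset Filter Topology MeasureTheory
open Pool.Agent.H306R2 Pool.Agent.H306R2.SM Pool.Agent.H223.EM Pool.Agent.H223.TM
open Pool.Agent.H491R2.EMMN1 Pool.Agent.H491R2.TMN1

noncomputable section

lemma gd4 (x : ℝ) : gd 4 x = if 0 < x then x ^ 3 / 6 else 0 := by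
  have := gd_nat 3 x
  norm_num [Nat.factorial] at this
  exact this

lemma gd8 (x : ℝ) : gd 8 x = if 0 < x then x ^ 7 / 5040 else 0 := by
  have := gd_nat 7 x
  norm_num [Nat.factorial] at this
  exact this

lemma gd16 (x : ℝ) : gd 16 x = if 0 < x then x ^ 15 / 1307674368000 else 0 := by
  have := gd_nat 15 x
  norm_num [Nat.factorial] at this
  exact this

/-- the coefficient polynomial -/
def gB (x : ℝ) : ℝ := 37 * (1 / 2 - x) ^ 9

lemma gB_meas : Measurable gB := by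
  have : Continuous gB := by unfold gB; fun_prop
  exact this.measurable

/-! ### the norm -/

/-- limit integrand of the norm -/
def Fn (u : Fin 2 → ℝ) : ℝ := Gd ![16, 4] u * (gB (u 0) * Hv (u 0) * Hv (u 1)) ^ 2

lemma Fn_meas : Measurable Fn := by
  unfold Fn
  refine (Gd_meas _).mul (Measurable.pow_const ?_ 2)
  have m (i : Fin 2) : Measurable (fun u : Fin 2 → ℝ => u i) := measurable_pi_apply i
  exact ((gB_meas.comp (m 0)).mul (Hv_meas.comp (m 0))).mul (Hv_meas.comp (m 1))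

lemma Gd2 (u : Fin 2 → ℝ) : Gd ![16, 4] u =
    if 0 < u 0 ∧ 0 < u 1 then u 0 ^ 15 / 1307674368000 * (u 1 ^ 3 / 6) else 0 := by
  unfold Gd
  rw [Fin.prod_univ_two]
  simp only [Matrix.cons_val_zero, Matrix.cons_val_one]
  rw [gd16, gd4]
  by_cases h0 : 0 < u 0 <;> by_cases h1 : 0 < u 1 <;> simp [h0, h1]

lemma norm_dct : Tendsto JBn (𝓝[>] 0) (𝓝 (∫ u, Fn u)) ∧ Nice Fn := by
  refine dct (fun ε u => Gd ![16, 4] u * FB ε (u 0) (u 1) ^ 2) Fn
    (fun u => u 0 ^ 15 / 1307674368000 * (u 1 ^ 3 / 6) * gB (u 0) ^ 2) ?_ Fn_meas ?_ ?_ ?_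
  · intro ε
    refine (Gd_meas _).mul (Measurable.pow_const ?_ 2)
    have m (i : Fin 2) : Measurable (fun u : Fin 2 → ℝ => u i) := measurable_pi_apply i
    unfold Pool.Agent.H223.TM.FB
    exact ((gB_meas.comp (m 0)).mul ((et_meas ε).comp (m 0))).mul ((et_meas ε).comp (m 1))
  · unfold gB
    fun_prop
  · intro ε hε u
    rw [Gd2]
    by_cases h : ∀ i, 0 < u i ∧ u i < 1 / 2
    · rw [if_pos h, if_pos ⟨(h 0).1, (h 1).1⟩]
      have e1 : 0 ≤ u 0 ^ 15 / 1307674368000 * (u 1 ^ 3 / 6) := by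
        have := (h 0).1
        have := (h 1).1
        positivity
      rw [abs_mul _ (FB ε (u 0) (u 1) ^ 2), abs_mul _ (gB (u 0) ^ 2), abs_of_nonneg e1]
      refine mul_le_mul_of_nonneg_left ?_ e1
      have hFB : FB ε (u 0) (u 1) = gB (u 0) * et ε (u 0) * et ε (u 1) := rfl
      rw [hFB, abs_of_nonneg (sq_nonneg _), abs_of_nonneg (sq_nonneg _), mul_pow _ (et ε (u 1)),
        mul_pow _ (et ε (u 0))]
      have a1 := et_nonneg ε (u 0)
      have a2 := et_le_one ε (u 0)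
      have b1 := et_nonneg ε (u 1)
      have b2 := et_le_one ε (u 1)
      have c1 : et ε (u 0) ^ 2 ≤ 1 := pow_le_one₀ a1 a2
      have c2 : et ε (u 1) ^ 2 ≤ 1 := pow_le_one₀ b1 b2
      calc gB (u 0) ^ 2 * et ε (u 0) ^ 2 * et ε (u 1) ^ 2
          ≤ gB (u 0) ^ 2 * 1 * 1 := by gcongr
        _ = _ := by ring
    · rw [if_neg h]
      refine le_of_eq ?_
      rw [abs_eq_zero]
      rw [Fin.forall_fin_two] at h
      by_cases h0 : 0 < u 0 ∧ 0 < u 1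
      · rw [if_pos h0]
        unfold Pool.Agent.H223.TM.FB
        rcases lt_or_ge (u 0) (1 / 2) with h1 | h1
        · rcases lt_or_ge (u 1) (1 / 2) with h2 | h2
          · exact absurd ⟨⟨h0.1, h1⟩, ⟨h0.2, h2⟩⟩ h
          · rw [et_zero hε h2]; ring
        · rw [et_zero hε h1]; ring
      · rw [if_neg h0, zero_mul]
  · intro u
    filter_upwards [et_ev (u 0), et_ev (u 1)] with ε h1 h2
    unfold Fn Pool.Agent.H223.TM.FB gB
    rw [h1, h2]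

lemma norm_val : ∫ u, Fn u = 14042804082181875 / 8388608 / (Nat.factorial 36 : ℝ) := by
  have hN := norm_dct.2
  rw [fub hN 0]
  have h1 : ∀ x0 : ℝ, ∫ v : Fin 1 → ℝ, Fn ((0 : Fin 2).insertNth x0 v) = ∫ x1 : ℝ, Fn ![x0, x1] := by
    intro x0
    rw [fub (hN.slice 0 x0) 0]
    refine integral_congr_ae (Eventually.of_forall fun x1 => ?_)
    simp only
    rw [int0 _ Fin.elim0, ins2]
  simp only [h1]
  have hval : ∀ x0 x1 : ℝ, Fn ![x0, x1] = if (0 < x0 ∧ x0 < 1 / 2) ∧ (0 < x1 ∧ x1 < 1 / 2) then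
      x0 ^ 15 / 1307674368000 * gB x0 ^ 2 * (x1 ^ 3 / 6) else 0 := by
    intro x0 x1
    unfold Fn
    rw [Gd2]
    simp only [Matrix.cons_val_zero, Matrix.cons_val_one]
    unfold Hv
    by_cases a : 0 < x0 <;> by_cases b : x0 < 1 / 2 <;> by_cases c : 0 < x1 <;>
      by_cases d : x1 < 1 / 2 <;> simp only [a, b, c, d, and_self, and_true, and_false, true_and,
        false_and, if_true, if_false] <;> ring
  have h2 : ∀ x0 : ℝ, ∫ x1 : ℝ, Fn ![x0, x1] = if 0 < x0 ∧ x0 < 1 / 2 then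
      x0 ^ 15 / 1307674368000 * gB x0 ^ 2 * (1 / 384) else 0 := by
    intro x0
    by_cases h : 0 < x0 ∧ x0 < 1 / 2
    · rw [if_pos h]
      rw [cutint (c := 1 / 2) (g := fun x1 => x0 ^ 15 / 1307674368000 * gB x0 ^ 2 *
        (x1 ^ 3 / 6)) (by norm_num)
        (fun x1 => by rw [hval]; simp only [h, and_self, true_and])]
      rw [intervalIntegral.integral_const_mul, intervalIntegral.integral_div, integral_pow]
      norm_num
    · rw [if_neg h]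
      have : ∀ x1, Fn ![x0, x1] = 0 := by
        intro x1
        rw [hval, if_neg (fun h' => h h'.1)]
      simp only [this, integral_zero]
  rw [cutint (c := 1 / 2) (by norm_num) h2]
  have e : ∀ x0 : ℝ, x0 ^ 15 / 1307674368000 * gB x0 ^ 2 * (1 / 384) =
      (1369 / 1307674368000 / 384) * (x0 ^ 15 * (1 / 2 - x0) ^ 18) := by
    intro x0
    unfold gB
    ring
  simp only [e]
  rw [intervalIntegral.integral_const_mul, bint]
  norm_num [Nat.factorial]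

/-! ### the cross term -/

/-- limit integrand of the cross term -/
def Fc (u : Fin 5 → ℝ) : ℝ := Gd ![8, 8, 4, 4, 4] u *
  ((gB (u 0 + u 1) * Hv (u 0 + u 1) * Hv (u 2)) * Hq (u 0 + u 3) * Hq (u 1 + u 4))

lemma Fc_meas : Measurable Fc := by
  unfold Fc
  refine (Gd_meas _).mul ?_
  have m (i : Fin 5) : Measurable (fun u : Fin 5 → ℝ => u i) := measurable_pi_apply i
  exact ((((gB_meas.comp ((m 0).add (m 1))).mul
    (Hv_meas.comp ((m 0).add (m 1)))).mul (Hv_meas.comp (m 2))).mul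
    (Hq_meas.comp ((m 0).add (m 3)))).mul (Hq_meas.comp ((m 1).add (m 4)))

lemma Gd5 (u : Fin 5 → ℝ) : Gd ![8, 8, 4, 4, 4] u =
    if 0 < u 0 ∧ 0 < u 1 ∧ 0 < u 2 ∧ 0 < u 3 ∧ 0 < u 4 then
      u 0 ^ 7 / 5040 * (u 1 ^ 7 / 5040) * (u 2 ^ 3 / 6) * (u 3 ^ 3 / 6) * (u 4 ^ 3 / 6) else 0 := by
  unfold Gd
  rw [Fin.prod_univ_five]
  have e0 : (![8, 8, 4, 4, 4] : Fin 5 → ℝ) 0 = 8 := rfl
  have e1 : (![8, 8, 4, 4, 4] : Fin 5 → ℝ) 1 = 8 := rfl
  have e2 : (![8, 8, 4, 4, 4] : Fin 5 → ℝ) 2 = 4 := rfl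
  have e3 : (![8, 8, 4, 4, 4] : Fin 5 → ℝ) 3 = 4 := rfl
  have e4 : (![8, 8, 4, 4, 4] : Fin 5 → ℝ) 4 = 4 := rfl
  rw [e0, e1, e2, e3, e4, gd8, gd8, gd4, gd4, gd4]
  by_cases h0 : 0 < u 0 <;> by_cases h1 : 0 < u 1 <;> by_cases h2 : 0 < u 2 <;>
    by_cases h3 : 0 < u 3 <;> by_cases h4 : 0 < u 4 <;>
      simp [h0, h1, h2, h3, h4]

lemma cross_dct : Tendsto JBc (𝓝[>] 0) (𝓝 (∫ u, Fc u)) ∧ Nice Fc := by
  refine dct (fun ε u => Gd ![8, 8, 4, 4, 4] u *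
    (FB ε (u 0 + u 1) (u 2) * eq4 ε (u 0 + u 3) * eq4 ε (u 1 + u 4))) Fc
    (fun u => u 0 ^ 7 / 5040 * (u 1 ^ 7 / 5040) * (u 2 ^ 3 / 6) * (u 3 ^ 3 / 6) * (u 4 ^ 3 / 6) *
      gB (u 0 + u 1)) ?_ Fc_meas ?_ ?_ ?_
  · intro ε
    refine (Gd_meas _).mul ?_
    have m (i : Fin 5) : Measurable (fun u : Fin 5 → ℝ => u i) := measurable_pi_apply i
    unfold Pool.Agent.H223.TM.FB
    exact ((((gB_meas.comp ((m 0).add (m 1))).mul
      ((et_meas ε).comp ((m 0).add (m 1)))).mul ((et_meas ε).comp (m 2))).mul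
      ((eq4_meas ε).comp ((m 0).add (m 3)))).mul ((eq4_meas ε).comp ((m 1).add (m 4)))
  · unfold gB
    fun_prop
  · intro ε hε u
    rw [Gd5]
    have hFB : FB ε (u 0 + u 1) (u 2) = gB (u 0 + u 1) * et ε (u 0 + u 1) * et ε (u 2) := rfl
    rw [hFB]
    by_cases h0 : 0 < u 0 ∧ 0 < u 1 ∧ 0 < u 2 ∧ 0 < u 3 ∧ 0 < u 4
    · rw [if_pos h0]
      obtain ⟨p0, p1, p2, p3, p4⟩ := h0
      have e1 : 0 ≤ u 0 ^ 7 / 5040 * (u 1 ^ 7 / 5040) * (u 2 ^ 3 / 6) * (u 3 ^ 3 / 6) *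
        (u 4 ^ 3 / 6) := by positivity
      by_cases h : ∀ i, 0 < u i ∧ u i < 1 / 2
      · rw [if_pos h, abs_mul _ (gB (u 0 + u 1) * et ε (u 0 + u 1) * et ε (u 2) *
          eq4 ε (u 0 + u 3) * eq4 ε (u 1 + u 4)), abs_mul _ (gB (u 0 + u 1)), abs_of_nonneg e1]
        refine mul_le_mul_of_nonneg_left ?_ e1
        rw [abs_mul _ (eq4 ε (u 1 + u 4)), abs_mul _ (eq4 ε (u 0 + u 3)), abs_mul _ (et ε (u 2)),
          abs_mul _ (et ε (u 0 + u 1)), abs_of_nonneg (et_nonneg _ _),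
          abs_of_nonneg (et_nonneg _ _), abs_of_nonneg (eq4_nonneg _ _),
          abs_of_nonneg (eq4_nonneg _ _)]
        have a1 := et_nonneg ε (u 0 + u 1)
        have a2 := et_le_one ε (u 0 + u 1)
        have b1 := et_nonneg ε (u 2)
        have b2 := et_le_one ε (u 2)
        have c1 := eq4_nonneg ε (u 0 + u 3)
        have c2 := eq4_le_one ε (u 0 + u 3)
        have d1 := eq4_nonneg ε (u 1 + u 4)
        have d2 := eq4_le_one ε (u 1 + u 4)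
        calc |gB (u 0 + u 1)| * et ε (u 0 + u 1) * et ε (u 2) *
              eq4 ε (u 0 + u 3) * eq4 ε (u 1 + u 4)
            ≤ |gB (u 0 + u 1)| * 1 * 1 * 1 * 1 := by gcongr
          _ = _ := by ring
      · rw [if_neg h]
        refine le_of_eq ?_
        rw [abs_eq_zero]
        rcases lt_or_ge (u 2) (1 / 2) with h2 | h2
        · rcases lt_or_ge (u 0 + u 3) (1 / 4) with h3 | h3
          · rcases lt_or_ge (u 1 + u 4) (1 / 4) with h4 | h4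
            · exfalso
              apply h
              intro i
              fin_cases i
              · exact ⟨p0, by simp only [Fin.zero_eta]; linarith⟩
              · exact ⟨p1, by simp only [Fin.mk_one]; linarith⟩
              · exact ⟨p2, h2⟩
              · exact ⟨p3, by simp only [Fin.reduceFinMk]; linarith⟩
              · exact ⟨p4, by simp only [Fin.reduceFinMk]; linarith⟩
            · rw [eq4_zero hε h4]; ring
          · rw [eq4_zero hε h3]; ring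
        · rw [et_zero hε h2]; ring
    · rw [if_neg h0, zero_mul, abs_zero]
      split_ifs
      · exact abs_nonneg _
      · exact le_refl _
  · intro u
    filter_upwards [et_ev (u 0 + u 1), et_ev (u 2), eq4_ev (u 0 + u 3), eq4_ev (u 1 + u 4)]
      with ε h1 h2 h3 h4
    unfold Fc Pool.Agent.H223.TM.FB gB
    rw [h1, h2, h3, h4]

lemma ins5 (x0 x1 x2 x3 x4 : ℝ) (y : Fin 0 → ℝ) :
    (0 : Fin 5).insertNth x0 ((0 : Fin 4).insertNth x1 ((0 : Fin 3).insertNth x2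
      ((0 : Fin 2).insertNth x3 ((0 : Fin 1).insertNth x4 y)))) =
      (![x0, x1, x2, x3, x4] : Fin 5 → ℝ) := by
  symm
  rw [Fin.eq_insertNth_iff]
  refine ⟨rfl, ?_⟩
  symm
  funext j
  fin_cases j
  · rfl
  · rfl
  · rfl
  · rfl

lemma Fc_val (x0 x1 x2 x3 x4 : ℝ) : Fc ![x0, x1, x2, x3, x4] =
    if (0 < x0 ∧ x0 < 1 / 4) ∧ (0 < x1 ∧ x1 < 1 / 4) ∧ (0 < x2 ∧ x2 < 1 / 2) ∧
      (0 < x3 ∧ x3 < 1 / 4 - x0) ∧ (0 < x4 ∧ x4 < 1 / 4 - x1) then
    x0 ^ 7 / 5040 * (x1 ^ 7 / 5040) * (x2 ^ 3 / 6) * (x3 ^ 3 / 6) * gB (x0 + x1) *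
      (x4 ^ 3 / 6) else 0 := by
  unfold Fc
  rw [Gd5]
  have e0 : (![x0, x1, x2, x3, x4] : Fin 5 → ℝ) 0 = x0 := rfl
  have e1 : (![x0, x1, x2, x3, x4] : Fin 5 → ℝ) 1 = x1 := rfl
  have e2 : (![x0, x1, x2, x3, x4] : Fin 5 → ℝ) 2 = x2 := rfl
  have e3 : (![x0, x1, x2, x3, x4] : Fin 5 → ℝ) 3 = x3 := rfl
  have e4 : (![x0, x1, x2, x3, x4] : Fin 5 → ℝ) 4 = x4 := rfl
  rw [e0, e1, e2, e3, e4]
  unfold Hv Hq
  by_cases h : (0 < x0 ∧ x0 < 1 / 4) ∧ (0 < x1 ∧ x1 < 1 / 4) ∧ (0 < x2 ∧ x2 < 1 / 2) ∧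
      (0 < x3 ∧ x3 < 1 / 4 - x0) ∧ (0 < x4 ∧ x4 < 1 / 4 - x1)
  · rw [if_pos h]
    obtain ⟨⟨a1, a2⟩, ⟨a3, a4⟩, ⟨a5, a6⟩, ⟨b1, b2⟩, b3, b4⟩ := h
    rw [if_pos ⟨a1, a3, a5, b1, b3⟩, if_pos (show x0 + x1 < 1 / 2 by linarith), if_pos a6,
      if_pos (show x0 + x3 < 1 / 4 by linarith), if_pos (show x1 + x4 < 1 / 4 by linarith)]
    ring
  · rw [if_neg h]
    by_cases h0 : 0 < x0 ∧ 0 < x1 ∧ 0 < x2 ∧ 0 < x3 ∧ 0 < x4
    · rw [if_pos h0]
      by_cases h2 : x2 < 1 / 2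
      · by_cases h3 : x0 + x3 < 1 / 4
        · by_cases h4 : x1 + x4 < 1 / 4
          · exfalso
            apply h
            obtain ⟨b0, b1, b2, b3, b4⟩ := h0
            refine ⟨⟨b0, by linarith⟩, ⟨b1, by linarith⟩, ⟨b2, h2⟩,
              ⟨b3, by linarith⟩, ⟨b4, by linarith⟩⟩
          · rw [if_neg h4]; ring
        · rw [if_neg h3]; ring
      · rw [if_neg h2]; ring
    · rw [if_neg h0, zero_mul]

lemma step4 (x0 x1 x2 x3 : ℝ) : ∫ x4 : ℝ, Fc ![x0, x1, x2, x3, x4] =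
    if (0 < x0 ∧ x0 < 1 / 4) ∧ (0 < x1 ∧ x1 < 1 / 4) ∧ (0 < x2 ∧ x2 < 1 / 2) ∧
      (0 < x3 ∧ x3 < 1 / 4 - x0) then
    x0 ^ 7 / 5040 * (x1 ^ 7 / 5040) * (x2 ^ 3 / 6) * gB (x0 + x1) * ((1 / 4 - x1) ^ 4 / 24) *
      (x3 ^ 3 / 6) else 0 := by
  by_cases h : (0 < x0 ∧ x0 < 1 / 4) ∧ (0 < x1 ∧ x1 < 1 / 4) ∧ (0 < x2 ∧ x2 < 1 / 2) ∧
      (0 < x3 ∧ x3 < 1 / 4 - x0)
  · rw [if_pos h]
    rw [cutint (c := 1 / 4 - x1) (g := fun x4 => x0 ^ 7 / 5040 * (x1 ^ 7 / 5040) * (x2 ^ 3 / 6) *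
      (x3 ^ 3 / 6) * gB (x0 + x1) * (x4 ^ 3 / 6))
      (by linarith [h.2.1.2]) (fun x4 => by rw [Fc_val]; simp only [h, true_and, and_self])]
    rw [intervalIntegral.integral_const_mul, intervalIntegral.integral_div, integral_pow]
    norm_num
    ring
  · rw [if_neg h]
    have : ∀ x4, Fc ![x0, x1, x2, x3, x4] = 0 := by
      intro x4
      rw [Fc_val, if_neg (fun h' => h ⟨h'.1, h'.2.1, h'.2.2.1, h'.2.2.2.1⟩)]
    simp only [this, integral_zero]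

lemma step3 (x0 x1 x2 : ℝ) : ∫ x3 : ℝ, ∫ x4 : ℝ, Fc ![x0, x1, x2, x3, x4] =
    if (0 < x0 ∧ x0 < 1 / 4) ∧ (0 < x1 ∧ x1 < 1 / 4) ∧ (0 < x2 ∧ x2 < 1 / 2) then
    x0 ^ 7 / 5040 * (x1 ^ 7 / 5040) * gB (x0 + x1) * ((1 / 4 - x1) ^ 4 / 24) *
      ((1 / 4 - x0) ^ 4 / 24) * (x2 ^ 3 / 6) else 0 := by
  simp only [step4]
  by_cases h : (0 < x0 ∧ x0 < 1 / 4) ∧ (0 < x1 ∧ x1 < 1 / 4) ∧ (0 < x2 ∧ x2 < 1 / 2)
  · rw [if_pos h]
    rw [cutint (c := 1 / 4 - x0) (g := fun x3 => x0 ^ 7 / 5040 * (x1 ^ 7 / 5040) * (x2 ^ 3 / 6) *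
      gB (x0 + x1) * ((1 / 4 - x1) ^ 4 / 24) * (x3 ^ 3 / 6))
      (by linarith [h.1.2]) (fun x3 => by simp only [h, true_and, and_self])]
    rw [intervalIntegral.integral_const_mul, intervalIntegral.integral_div, integral_pow]
    norm_num
    ring
  · rw [if_neg h]
    have : ∀ x3 : ℝ, (if (0 < x0 ∧ x0 < 1 / 4) ∧ (0 < x1 ∧ x1 < 1 / 4) ∧ (0 < x2 ∧ x2 < 1 / 2) ∧
      (0 < x3 ∧ x3 < 1 / 4 - x0) then
    x0 ^ 7 / 5040 * (x1 ^ 7 / 5040) * (x2 ^ 3 / 6) * gB (x0 + x1) * ((1 / 4 - x1) ^ 4 / 24) *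
      (x3 ^ 3 / 6) else 0) = 0 := by
      intro x3
      rw [if_neg (fun h' => h ⟨h'.1, h'.2.1, h'.2.2.1⟩)]
    simp only [this, integral_zero]

/-- polynomial after the first three integrations; `A = 1/4 - u 0`, `B = 1/4 - u 1` -/
def H0 (A B : ℝ) : ℝ := 37 * (A + B) ^ 9 * (A ^ 4 / 24) * (B ^ 4 / 24) / 384

lemma step2 (x0 x1 : ℝ) : ∫ x2 : ℝ, ∫ x3 : ℝ, ∫ x4 : ℝ, Fc ![x0, x1, x2, x3, x4] =
    if (0 < x0 ∧ x0 < 1 / 4) ∧ (0 < x1 ∧ x1 < 1 / 4) then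
    x0 ^ 7 / 5040 * (x1 ^ 7 / 5040) * H0 (1 / 4 - x0) (1 / 4 - x1) else 0 := by
  simp only [step3]
  by_cases h : (0 < x0 ∧ x0 < 1 / 4) ∧ (0 < x1 ∧ x1 < 1 / 4)
  · rw [if_pos h]
    rw [cutint (c := 1 / 2) (g := fun x2 => x0 ^ 7 / 5040 * (x1 ^ 7 / 5040) *
      gB (x0 + x1) * ((1 / 4 - x1) ^ 4 / 24) * ((1 / 4 - x0) ^ 4 / 24) * (x2 ^ 3 / 6))
      (by norm_num) (fun x2 => by simp only [h, true_and, and_self])]
    rw [intervalIntegral.integral_const_mul, intervalIntegral.integral_div, integral_pow]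
    unfold gB H0
    have e : (1 : ℝ) / 4 - x0 + (1 / 4 - x1) = 1 / 2 - (x0 + x1) := by ring
    rw [e]
    norm_num
    ring
  · rw [if_neg h]
    have : ∀ x2 : ℝ, (if (0 < x0 ∧ x0 < 1 / 4) ∧ (0 < x1 ∧ x1 < 1 / 4) ∧
      (0 < x2 ∧ x2 < 1 / 2) then
    x0 ^ 7 / 5040 * (x1 ^ 7 / 5040) * gB (x0 + x1) * ((1 / 4 - x1) ^ 4 / 24) *
      ((1 / 4 - x0) ^ 4 / 24) * (x2 ^ 3 / 6) else 0) = 0 := by
      intro x2
      rw [if_neg (fun h' => h ⟨h'.1, h'.2.1⟩)]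
    simp only [this, integral_zero]

/-- coefficients (in `B`) of `H0 A B / 7!` -/
def kB (A : ℝ) (i : ℕ) : ℝ := ([0, 0, 0, 0, (37 / 1114767360 : ℝ) * A ^ 13, (37 / 123863040 : ℝ) * A ^ 12, (37 / 30965760 : ℝ) * A ^ 11, (37 / 13271040 : ℝ) * A ^ 10, (37 / 8847360 : ℝ) * A ^ 9, (37 / 8847360 : ℝ) * A ^ 8, (37 / 13271040 : ℝ) * A ^ 7, (37 / 30965760 : ℝ) * A ^ 6, (37 / 123863040 : ℝ) * A ^ 5, (37 / 1114767360 : ℝ) * A ^ 4] : List ℝ).getD i 0

/-- polynomial after the integration over `u 1` -/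
def K0 (A : ℝ) : ℝ := (37 / 7981364057002656844795084800 : ℝ) * A ^ 4 + (37 / 137245678228881665320550400 : ℝ) * A ^ 5 + (37 / 5146712933583062449520640 : ℝ) * A ^ 6 + (37 / 319250990241054625628160 : ℝ) * A ^ 7 + (37 / 29560276874171724595200 : ℝ) * A ^ 8 + (37 / 3912389586287434137600 : ℝ) * A ^ 9 + (37 / 733573047428893900800 : ℝ) * A ^ 10 + (37 / 199694885133421117440 : ℝ) * A ^ 11 + (37 / 85583522200037621760 : ℝ) * A ^ 12 + (37 / 74062663442340249600 : ℝ) * A ^ 13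

/-- coefficients of `K0 A / 7!` -/
def kA (i : ℕ) : ℝ := ([0, 0, 0, 0, (37 / 40226074847293390497767227392000 : ℝ), (37 / 691718218273563593215574016000 : ℝ), (37 / 25939433185258634745584025600 : ℝ), (37 / 1609024990814915313165926400 : ℝ), (37 / 148983795445825491959808000 : ℝ), (37 / 19718443514888668053504000 : ℝ), (37 / 3697208159041625260032000 : ℝ), (37 / 1006462221072442431897600 : ℝ), (37 / 431340951888189613670400 : ℝ), (37 / 373275823749394857984000 : ℝ)] : List ℝ).getD i 0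

lemma H0_exp (A B y : ℝ) : y / 5040 * H0 A B = ∑ i ∈ range 14, kB A i * (y * B ^ i) := by
  unfold H0 kB
  simp only [sum_range_succ, range_zero, sum_empty, List.getD_cons_zero, List.getD_cons_succ]
  ring

lemma K0_eq (A : ℝ) : ∑ i ∈ range 14, kB A i *
    ((((7 : ℕ).factorial : ℝ) * (i.factorial : ℝ)) / ((7 + i + 1).factorial : ℝ) *
      (1 / 4) ^ (7 + i + 1)) = K0 A := by
  unfold K0 kB
  simp only [sum_range_succ, range_zero, sum_empty, List.getD_cons_zero, List.getD_cons_succ]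
  norm_num [Nat.factorial]
  ring

lemma step1 (x0 : ℝ) : ∫ x1 : ℝ, ∫ x2 : ℝ, ∫ x3 : ℝ, ∫ x4 : ℝ,
    Fc ![x0, x1, x2, x3, x4] =
    if 0 < x0 ∧ x0 < 1 / 4 then x0 ^ 7 / 5040 * K0 (1 / 4 - x0) else 0 := by
  simp only [step2]
  by_cases h : 0 < x0 ∧ x0 < 1 / 4
  · rw [if_pos h]
    rw [cutint (c := 1 / 4) (g := fun x1 => x0 ^ 7 / 5040 * (x1 ^ 7 / 5040) *
      H0 (1 / 4 - x0) (1 / 4 - x1)) (by norm_num) (fun x1 => by simp only [h, true_and, and_self])]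
    have e : ∀ x1 : ℝ, x0 ^ 7 / 5040 * (x1 ^ 7 / 5040) * H0 (1 / 4 - x0) (1 / 4 - x1) =
        (x0 ^ 7 / 5040) * ∑ i ∈ range 14, kB (1 / 4 - x0) i * (x1 ^ 7 * (1 / 4 - x1) ^ i) := by
      intro x1
      rw [mul_assoc, H0_exp]
    simp only [e]
    rw [intervalIntegral.integral_const_mul, bsum, K0_eq]
  · rw [if_neg h]
    have : ∀ x1 : ℝ, (if (0 < x0 ∧ x0 < 1 / 4) ∧ (0 < x1 ∧ x1 < 1 / 4) then
    x0 ^ 7 / 5040 * (x1 ^ 7 / 5040) * H0 (1 / 4 - x0) (1 / 4 - x1) else 0) = 0 := by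
      intro x1
      rw [if_neg (fun h' => h h'.1)]
    simp only [this, integral_zero]

lemma cross_val : ∫ u, Fc u =
    553280105047466671875 / 576460752303423488 / (Nat.factorial 36 : ℝ) := by
  have hN := cross_dct.2
  have h1 : ∫ u, Fc u = ∫ x0 : ℝ, ∫ x1 : ℝ, ∫ x2 : ℝ, ∫ x3 : ℝ, ∫ x4 : ℝ,
      Fc ![x0, x1, x2, x3, x4] := by
    rw [fub hN 0]
    refine integral_congr_ae (Eventually.of_forall fun x0 => ?_)
    simp only
    have n1 := hN.slice 0 x0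
    rw [fub n1 0]
    refine integral_congr_ae (Eventually.of_forall fun x1 => ?_)
    simp only
    have n2 := n1.slice 0 x1
    rw [fub n2 0]
    refine integral_congr_ae (Eventually.of_forall fun x2 => ?_)
    simp only
    have n3 := n2.slice 0 x2
    rw [fub n3 0]
    refine integral_congr_ae (Eventually.of_forall fun x3 => ?_)
    simp only
    have n4 := n3.slice 0 x3
    rw [fub n4 0]
    refine integral_congr_ae (Eventually.of_forall fun x4 => ?_)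
    simp only
    rw [int0 _ Fin.elim0, ins5]
  rw [h1]
  rw [cutint (c := 1 / 4) (by norm_num) step1]
  have e : ∀ x0 : ℝ, x0 ^ 7 / 5040 * K0 (1 / 4 - x0) =
      ∑ i ∈ range 14, kA i * (x0 ^ 7 * (1 / 4 - x0) ^ i) := by
    intro x0
    obtain ⟨A, hA⟩ : ∃ A : ℝ, A = 1 / 4 - x0 := ⟨_, rfl⟩
    rw [← hA]
    unfold K0 kA
    simp only [sum_range_succ, range_zero, sum_empty, List.getD_cons_zero, List.getD_cons_succ]
    ring
  simp only [e]
  rw [bsum]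
  unfold kA
  simp only [sum_range_succ, range_zero, sum_empty, List.getD_cons_zero, List.getD_cons_succ]
  norm_num [Nat.factorial]

/-- N2 -/
theorem JB_lim :
    Tendsto JBn (𝓝[>] 0) (𝓝 (14042804082181875 / 8388608 / (Nat.factorial 36 : ℝ))) ∧
    Tendsto JBc (𝓝[>] 0) (𝓝 (553280105047466671875 / 576460752303423488 / (Nat.factorial 36 : ℝ))) := by
  refine ⟨?_, ?_⟩
  · rw [← norm_val]
    exact norm_dct.1
  · rw [← cross_val]
    exact cross_dct.1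

end

end Pool.Agent.H491R2.TMN2
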