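import Pool.Agent.H491R2.TM_N1
import Pool.Agent.H704R2.TM_N3b
import Pool.Agent.H656R2.TM_N3c

set_option autoImplicit false

/-!
Tasks N3a, N3 of the twelfth moment project (helper223): scaling and arithmetic.
-/

namespace Pool.Agent.H491R2.TMN3

open Finset Filter Topology MeasureTheory
open Pool.Agent.H306R2 Pool.Agent.H306R2.SM Pool.Agent.H223.EM Pool.Agent.H223.TM
open Pool.Agent.H491R2.EMMN1 Pool.Agent.H491R2.TMN1
open Pool.Agent.H704R2.TMN3 (Reg VP Q1 Q2)

noncomputable section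

lemma gd4s (x : ℝ) : gd 4 x = if 0 < x then x ^ 3 / 6 else 0 := by
  have := EMMN1.gd_nat 3 x
  norm_num [Nat.factorial] at this
  exact this

lemma gd4_scale (x : ℝ) : gd 4 (1 / 4 * x) = (1 / 4) ^ 3 * gd 4 x := by
  rw [gd4s, gd4s]
  by_cases h : 0 < x
  · rw [if_pos h, if_pos (by linarith)]; ring
  · rw [if_neg h, if_neg (by linarith)]; ring

lemma gd4_nn (x : ℝ) : 0 ≤ gd 4 x := gd_nonneg (by norm_num) x

/-- the weight -/
abbrev m9 : Fin 9 → ℝ := ![4, 4, 4, 4, 4, 4, 4, 4, 4]

lemma Gd9 (u : Fin 9 → ℝ) : Gd m9 u = ∏ i, gd 4 (u i) := by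
  unfold Gd
  refine Finset.prod_congr rfl (fun i _ => ?_)
  fin_cases i <;> rfl

lemma Gd9_scale (u : Fin 9 → ℝ) : Gd m9 ((1 / 4 : ℝ) • u) = (1 / 4) ^ 27 * Gd m9 u := by
  rw [Gd9, Gd9]
  simp only [Pi.smul_apply, smul_eq_mul, gd4_scale]
  rw [Finset.prod_mul_distrib, Finset.prod_const, Finset.card_univ, Fintype.card_fin]
  ring

lemma Gd9_nn (u : Fin 9 → ℝ) : 0 ≤ Gd m9 u := by
  rw [Gd9]
  exact Finset.prod_nonneg fun i _ => gd4_nn _

/-- the scaled integrand -/
def Fs (u : Fin 9 → ℝ) : ℝ := Gd m9 u * Reg.indicator (fun _ => (1 : ℝ)) ((4 : ℝ) • u)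

lemma Reg_meas : MeasurableSet Reg := by
  unfold Reg
  have m (i : Fin 9) : Measurable (fun u : Fin 9 → ℝ => u i) := measurable_pi_apply i
  have h (i j k : Fin 9) : MeasurableSet {u : Fin 9 → ℝ | u i + u j + u k ≤ 1} :=
    measurableSet_le (((m i).add (m j)).add (m k)) measurable_const
  exact (h 0 1 2).inter ((h 3 4 5).inter ((h 6 7 8).inter ((h 0 3 6).inter ((h 1 4 7).inter
    (h 2 5 8)))))

lemma Fs_meas : Measurable Fs := by
  unfold Fs
  refine (Gd_meas _).mul ?_
  exact (measurable_const.indicator Reg_meas).comp (measurable_const_smul (4 : ℝ))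

lemma Fs_nn (u : Fin 9 → ℝ) : 0 ≤ Fs u :=
  mul_nonneg (Gd9_nn u) (Set.indicator_nonneg (fun _ _ => zero_le_one) _)

lemma Fs_nice : Nice Fs := by
  refine ⟨Fs_meas, 1, 1, fun u => ?_⟩
  by_cases hpos : ∀ i, 0 < u i
  · by_cases hR : (4 : ℝ) • u ∈ Reg
    · have hb : ∀ i, u i ≤ 1 := by
        unfold Reg at hR
        simp only [Set.mem_setOf_eq, Pi.smul_apply, smul_eq_mul] at hR
        obtain ⟨h1, h2, h3, -, -, -⟩ := hR
        intro i
        have p0 := hpos 0
        have p1 := hpos 1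
        have p2 := hpos 2
        have p3 := hpos 3
        have p4 := hpos 4
        have p5 := hpos 5
        have p6 := hpos 6
        have p7 := hpos 7
        have p8 := hpos 8
        fin_cases i <;> simp only [Fin.zero_eta, Fin.mk_one, Fin.reduceFinMk] <;> linarith
      refine ⟨?_, fun _ i => by rw [abs_of_pos (hpos i)]; exact hb i⟩
      rw [abs_of_nonneg (Fs_nn u)]
      unfold Fs
      rw [Set.indicator_of_mem hR, mul_one, Gd9]
      refine Finset.prod_le_one (fun i _ => gd4_nn _) (fun i _ => ?_)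
      rw [gd4s, if_pos (hpos i)]
      have h1 := hb i
      have h2 := hpos i
      have h3 : u i ^ 3 ≤ 1 := pow_le_one₀ h2.le h1
      linarith
    · have h0 : Fs u = 0 := by
        unfold Fs
        rw [Set.indicator_of_notMem hR, mul_zero]
      rw [h0]
      simp
  · have h0 : Fs u = 0 := by
      unfold Fs
      push Not at hpos
      obtain ⟨i, hi⟩ := hpos
      rw [Gd9, Finset.prod_eq_zero (Finset.mem_univ i) (by rw [gd4s, if_neg (not_lt.mpr hi)]),
        zero_mul]
    rw [h0]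
    simp

lemma scale_int : ∫ u, Fs u = (1 / 4) ^ 36 * VP := by
  have h1 := Measure.integral_comp_smul (volume : Measure (Fin 9 → ℝ)) Fs (1 / 4 : ℝ)
  have h2 : ∀ u : Fin 9 → ℝ, Fs ((1 / 4 : ℝ) • u) =
      (1 / 4) ^ 27 * (Gd m9 u * Reg.indicator (fun _ => (1 : ℝ)) u) := by
    intro u
    unfold Fs
    rw [Gd9_scale, smul_smul]
    norm_num
    ring
  simp only [h2] at h1
  rw [integral_const_mul] at h1
  have h3 : Module.finrank ℝ (Fin 9 → ℝ) = 9 := by simp
  rw [h3, smul_eq_mul, abs_of_pos (by positivity)] at h1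
  have h4 : VP = ∫ u : Fin 9 → ℝ, Gd m9 u * Reg.indicator (fun _ => (1 : ℝ)) u := rfl
  rw [← h4] at h1
  have h5 : ∫ u, Fs u = (1 / 4) ^ 9 * ((1 / 4) ^ 27 * VP) := by
    rw [h1]
    rw [← mul_assoc, mul_inv_cancel₀ (by positivity), one_mul]
  rw [h5]
  ring

lemma eq4_le_ind {ε : ℝ} (hε : 0 < ε) {x : ℝ} (hx : ¬ 4 * x ≤ 1) : eq4 ε x = 0 :=
  eq4_zero hε (by linarith)

/-- N3a -/
theorem JP_le_VP (ε : ℝ) (hε : 0 < ε) (_hε1 : ε < 1 / 16) : JP ε ≤ (1 / 4) ^ 36 * VP := by
  rw [← scale_int]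
  unfold JP
  refine integral_mono_of_nonneg (Eventually.of_forall fun u => ?_) Fs_nice.integrable
    (Eventually.of_forall fun u => ?_)
  · refine mul_nonneg (Gd9_nn u) ?_
    have h := fun x => eq4_nonneg ε x
    exact mul_nonneg (mul_nonneg (mul_nonneg (h _) (h _)) (h _))
      (mul_nonneg (mul_nonneg (h _) (h _)) (h _))
  · have h := fun x => eq4_nonneg ε x
    have h' := fun x => eq4_le_one ε x
    show Gd m9 u * _ ≤ Fs u
    unfold Fs
    refine mul_le_mul_of_nonneg_left ?_ (Gd9_nn u)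
    by_cases hR : (4 : ℝ) • u ∈ Reg
    · rw [Set.indicator_of_mem hR]
      have k3 : ∀ a b c : ℝ, eq4 ε a * eq4 ε b * eq4 ε c ≤ 1 := by
        intro a b c
        calc eq4 ε a * eq4 ε b * eq4 ε c ≤ 1 * 1 * 1 := by
              have := h a; have := h b; have := h c
              have := h' a; have := h' b; have := h' c
              gcongr
          _ = 1 := by norm_num
      have n3 : ∀ a b c : ℝ, 0 ≤ eq4 ε a * eq4 ε b * eq4 ε c :=
        fun a b c => mul_nonneg (mul_nonneg (h _) (h _)) (h _)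
      exact mul_le_one₀ (k3 _ _ _) (n3 _ _ _) (k3 _ _ _)
    · rw [Set.indicator_of_notMem hR]
      refine le_of_eq ?_
      by_contra hne
      apply hR
      unfold Reg
      simp only [Set.mem_setOf_eq, Pi.smul_apply, smul_eq_mul]
      refine ⟨?_, ?_, ?_, ?_, ?_, ?_⟩
      · by_contra hc
        exact hne (by rw [eq4_le_ind hε (x := u 0 + u 1 + u 2) (by intro h9; exact hc (by linarith))]; ring)
      · by_contra hc
        exact hne (by rw [eq4_le_ind hε (x := u 3 + u 4 + u 5) (by intro h9; exact hc (by linarith))]; ring)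
      · by_contra hc
        exact hne (by rw [eq4_le_ind hε (x := u 6 + u 7 + u 8) (by intro h9; exact hc (by linarith))]; ring)
      · by_contra hc
        exact hne (by rw [eq4_le_ind hε (x := u 0 + u 3 + u 6) (by intro h9; exact hc (by linarith))]; ring)
      · by_contra hc
        exact hne (by rw [eq4_le_ind hε (x := u 1 + u 4 + u 7) (by intro h9; exact hc (by linarith))]; ring)
      · by_contra hc
        exact hne (by rw [eq4_le_ind hε (x := u 2 + u 5 + u 8) (by intro h9; exact hc (by linarith))]; ring)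

/-- N3, with the value of `Q2` (task N3d) as hypothesis -/
theorem JP_le_of
    (hQ2 : Q2 = 1450821515959 / 442849198559406211271427914465280000000)
    (ε : ℝ) (hε : 0 < ε) (hε1 : ε < 1 / 16) :
    JP ε ≤ 211045792946625 / 2361183241434822606848 / (Nat.factorial 36 : ℝ) := by
  refine (JP_le_VP ε hε hε1).trans (le_of_eq ?_)
  have hQ1 : Q1 = 10505889518801 / 1771396794237624845085711657861120000000 :=
    Pool.Agent.H656R2.TM.Q1_val
  rw [Pool.Agent.H704R2.TMN3.VP_eq, hQ1, hQ2]
  norm_num [Nat.factorial]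

end

end Pool.Agent.H491R2.TMN3
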